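import Pool.Agent.W761.CC.Defs

/-!
# Complete condensation in the continuum: statements of the parts
-/

set_option autoImplicit false

open MeasureTheory
open scoped ENNReal

namespace Pool.Agent.W761.CC

open Pool.Agent.W761.CB

noncomputable section

/-! ## A. Functions on `ℝ^n` -/

/-- the quadratic forms -/
def S_KQ : Prop := ∀ (n : ℕ) (D : Set (Fin n → ℝ)), (D = Set.univ ∨ ∃ r : ℝ, D = cube n r) →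
  (∀ (f : (Fin n → ℝ) → ℝ) (c : Fin n) (k : ℕ), BM f → gk D c k f ≤ gk D c (k + 1) f) ∧
  (∀ (μ t : ℝ) (v : ℝ → ℝ≥0∞) (f h : (Fin n → ℝ) → ℝ), Measurable v → BM f → BM h → 0 ≤ t →
    t ≤ 1 → QD μ v D (fun z => (1 - t) * f z + t * h z) +
      ENNReal.ofReal (t * (1 - t)) * QD μ v D (fun z => h z - f z) =
      ENNReal.ofReal (1 - t) * QD μ v D f + ENNReal.ofReal t * QD μ v D h) ∧
  (∀ (a r : ℝ) (f h : (Fin n → ℝ) → ℝ), BM f → BM h → (∀ z, z ∉ cube n a → f z = 1) →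
    a + 1 ≤ r → gr Set.univ h + gr (cube n r) (fun z => h z - f z) =
      gr Set.univ (fun z => h z - f z) + gr (cube n r) h)

/-- Poincare inequality in cubes -/
def S_POIC : Prop := ∀ n : ℕ, 1 ≤ n → ∃ A : ℝ, 0 ≤ A ∧ ∀ r : ℝ, 0 < r →
  ∀ f : (Fin n → ℝ) → ℝ, BM f →
    ∫⁻ x in cube n r, ∫⁻ y in cube n r, ENNReal.ofReal ((f x - f y) ^ 2) ≤
      ENNReal.ofReal (A * r ^ (n + 2)) * gr (cube n r) f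

/-- the energy of a cut off -/
def S_CUT : Prop := ∀ (n : ℕ) (μ : ℝ) (v : ℝ → ℝ≥0∞), 1 ≤ n → 0 < μ → Measurable v →
  ∫⁻ z : Fin n → ℝ, v (el z) ≠ ⊤ → ∃ C : ℝ, 0 ≤ C ∧ ∀ r : ℝ, 1 ≤ r →
  ∀ u : (Fin n → ℝ) → ℝ, BM u → ∫ z in cube n r, u z = (2 * r) ^ n →
    Adm (cutf r u) ∧ QD μ v Set.univ (cutf r u) ≤ ENNReal.ofReal C * (1 + QD μ v (cube n r) u)

/-- the scattering inequality in large cubes -/
def S_CAP : Prop := ∀ (n : ℕ) (μ : ℝ) (v : ℝ → ℝ≥0∞), 1 ≤ n → 0 < μ → Measurable v →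
  ∫⁻ z : Fin n → ℝ, v (el z) ≠ ⊤ → 0 < scat n μ v → ∀ ε : ℝ, 0 < ε → ε < 1 →
  ∃ r₀ : ℝ, 1 ≤ r₀ ∧ ∀ r : ℝ, r₀ ≤ r → Cap n μ v (scat n μ v / 2 * (1 - ε)) r

/-- the scattering constant is positive -/
def S_GPOS : Prop := ∀ (n : ℕ) (μ : ℝ) (v : ℝ → ℝ≥0∞), 3 ≤ n → 0 < μ → Measurable v →
  ∫⁻ z : Fin n → ℝ, v (el z) ≠ 0 → ∫⁻ z : Fin n → ℝ, v (el z) ≠ ⊤ → 0 < scat n μ v

/-- good trial functions -/
def S_SYM : Prop := ∀ (n : ℕ) (μ : ℝ) (v : ℝ → ℝ≥0∞), Measurable v →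
  ∫⁻ z : Fin n → ℝ, v (el z) ≠ ⊤ → ∀ κ : ℝ, 0 < κ → ∃ (f : (Fin n → ℝ) → ℝ) (a : ℝ),
    Measurable f ∧ (∀ z, f (-z) = f z) ∧ (∀ z, 0 ≤ f z ∧ f z ≤ 1) ∧ 1 ≤ a ∧
    (∀ z, z ∉ cube n a → f z = 1) ∧ QD μ v Set.univ f ≤ ENNReal.ofReal (scat n μ v / 2 + κ)

/-! ## B. The lower bound of the energy -/

/-- the scattering inequalities around several points of the torus -/
def S_CAPT : Prop := ∀ (n : ℕ) (L μ γ₀ r : ℝ) [Fact (0 < L)] (v : ℝ → ℝ≥0∞)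
    (G : Finset (Tor n L)) (f : Tor n L → ℂ), 0 ≤ μ → 0 ≤ γ₀ → 0 < r → 2 * r < L →
  Measurable v → Cap n μ v γ₀ r → Measurable f → (∃ B : ℝ, ∀ x, ‖f x‖ ≤ B) →
  (∀ y ∈ G, ∀ y' ∈ G, y ≠ y' → ∀ z ∈ cube n r, ∀ z' ∈ cube n r, y + pr L z ≠ y' + pr L z') →
  ENNReal.ofReal γ₀ * ∑ y ∈ G,
      ‖(((2 * r) ^ n : ℝ) : ℂ)⁻¹ * ∫ z in cube n r, f (y + pr L z)‖ₑ ^ 2 ≤
    ENNReal.ofReal μ * (∑ c : Fin n, ⨆ k : ℕ, 4 ^ k * d1 f (ec L c ((2 : ℝ)⁻¹ ^ k))) +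
      2⁻¹ * ∑ y ∈ G, ∫⁻ x, v (tdist x y) * ‖f x‖ₑ ^ 2

/-- one block with exactly `N` particles -/
def S_ONE : Prop := ∀ (X : Type) [MeasurableSpace X] (ν : Measure X) [IsFiniteMeasure ν]
    (B bd : Set X) (near : X → X → Prop) (Cb : X → Set X) (N : ℕ) (b q ν' β ε : ℝ)
    (F : Multiset X → ℂ), MeasurableSet B → MeasurableSet bd →
  MeasurableSet {p : X × X | near p.1 p.2} → MeasurableSet {p : X × X | p.2 ∈ Cb p.1} →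
  0 < b → ν B = ENNReal.ofReal b → bd ⊆ B → 0 ≤ β → ν bd ≤ ENNReal.ofReal β →
  (∀ x, near x x) → (∀ x y, near x y → near y x) → 0 ≤ ν' →
  (∀ y ∈ B, ν {y' | y' ∈ B ∧ near y y'} ≤ ENNReal.ofReal ν') → 0 < q →
  (∀ y ∈ B, y ∉ bd → Cb y ⊆ B ∧ ν (Cb y) = ENNReal.ofReal q) → 0 < ε → ε ≤ 1 → EB F →
  (∀ S, cnt B S ≠ N → F S = 0) →
  ENNReal.ofReal ((1 - ε) * N ^ 2 / b) * nE ν F ≤
    ENNReal.ofReal (N / b + N ^ 2 / b ^ 2 * (2 * β + 2 * ν' * N)) * nE ν F +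
    ENNReal.ofReal ((3 * N + 2 * N ^ 2) / b + N / (ε * q)) * dp ν B F +
    ∫⁻ γ, ((iso B (B \ bd) near (ms γ)).map fun y => ‖av ν (Cb y) F (ms γ)‖ₑ ^ 2).sum ∂(lam ν)

/-- the lower bound of the energy -/
def S_LAY : Prop := ∀ (n : ℕ) (L b r μ γ₀ ε CP : ℝ) [Fact (0 < L)] (v : ℝ → ℝ≥0∞) (q κ : ℕ),
  1 ≤ n → 0 < μ → Measurable v → 0 ≤ γ₀ → Cap n μ v γ₀ r →
  PO n L 2 CP (ENNReal.ofReal μ) (fun _ => 0) → 0 ≤ CP → 0 < ε → ε ≤ 1 → 0 < r → 4 * r ≤ b →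
  1 ≤ b → 2 ≤ q → L = q * b → ∀ F : Multiset (Tor n L) → ℂ, EB F →
  ENNReal.ofReal (γ₀ * (1 - ε) / b ^ n) * ∑ i : Fin n → Fin q, ∫⁻ γ,
      (if cnt (blk n L b (fun c => (i c : ℕ))) (ms γ) ≤ κ then
        (cnt (blk n L b (fun c => (i c : ℕ))) (ms γ) : ℝ≥0∞) ^ 2 else 0) * ‖F (ms γ)‖ₑ ^ 2
        ∂(lam (volume : Measure (Tor n L))) ≤
    en (ENNReal.ofReal μ) (fun _ => 0) v F +
    ENNReal.ofReal (γ₀ * (L ^ n / b ^ n) * (κ / b ^ n + κ ^ 2 / b ^ n *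
      (4 * n * r / b + 2 * κ * (4 * r / b) ^ n))) * nE volume F +
    ENNReal.ofReal (γ₀ * (5 * κ ^ 2 / b ^ n + κ / (ε * (2 * r) ^ n)) * (CP * b ^ 2)) *
      ken (ENNReal.ofReal μ) (fun _ => 0) F

/-- crowded blocks -/
def S_CRD : Prop := ∀ (n : ℕ) (L b₁ : ℝ) [Fact (0 < L)] (q M : ℕ) (D : ℝ≥0∞), 1 ≤ q → 1 ≤ M →
  L = (q * M : ℕ) * b₁ → ∀ F : Multiset (Tor n L) → ℂ, EB F →
  ∑ i : Fin n → Fin (q * M), ∫⁻ γ,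
      ((cnt (blk n L b₁ (fun c => (i c : ℕ))) (ms γ) - 1 : ℕ) : ℝ≥0∞) * ‖F (ms γ)‖ₑ ^ 2
        ∂(lam (volume : Measure (Tor n L))) ≤ D →
  ∑ i : Fin n → Fin q, ∫⁻ γ,
      (if cnt (blk n L (M * b₁) (fun c => (i c : ℕ))) (ms γ) ≤ 2 * M ^ n then 0 else
        (cnt (blk n L (M * b₁) (fun c => (i c : ℕ))) (ms γ) : ℝ≥0∞)) * ‖F (ms γ)‖ₑ ^ 2
        ∂(lam (volume : Measure (Tor n L))) ≤ 2 * D

/-! ## C. From the lower bound of the energy to the amplitudes -/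

/-- translation invariance -/
def S_TR : Prop := ∀ (n : ℕ) (L : ℝ) [Fact (0 < L)] (μ : ℝ≥0∞) (K : (Fin n → ℝ) → ℝ≥0∞)
    (v : ℝ → ℝ≥0∞) (a : Tor n L) (F : Multiset (Tor n L) → ℂ), Measurable K → Measurable v →
  EB F → EB (tra a F) ∧ nE volume (tra a F) = nE volume F ∧ nuE volume (tra a F) = nuE volume F ∧
    ken μ K (tra a F) = ken μ K F ∧ en μ K v (tra a F) = en μ K v F

/-- convexity -/
def S_CVX : Prop := ∀ (n : ℕ) (L b ρ : ℝ) [Fact (0 < L)] (q M : ℕ), 1 ≤ q → 1 ≤ M →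
  L = (q * M : ℕ) * b → 0 < ρ → ∀ F : Multiset (Tor n L) → ℂ, EB F →
  ENNReal.ofReal ((M * b) ^ n) * ∑ i : Fin n → Fin q, ∫⁻ γ,
      ENNReal.ofReal (pf (((ms γ).map (hat n L (M * b) (fun c => (i c : ℕ)))).sum /
        ((M * b) ^ n * ρ))) * ‖F (ms γ)‖ₑ ^ 2 ∂(lam (volume : Measure (Tor n L))) ≤
  ENNReal.ofReal (((M * b) ^ n)⁻¹) * ∫⁻ t in {t : Fin n → ℝ | ∀ c, 0 ≤ t c ∧ t c < M * b},
    ENNReal.ofReal (b ^ n) * ∑ k : Fin n → Fin (q * M), ∫⁻ γ,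
      ENNReal.ofReal (pf (cnt (blk n L b (fun c => (k c : ℕ))) (ms γ) / (b ^ n * ρ))) *
        ‖tra (pr L t) F (ms γ)‖ₑ ^ 2 ∂(lam (volume : Measure (Tor n L)))

/-- the lower bound of the amplitudes at the last scale -/
def S_BOT2 : Prop := ∀ (X : Type) [MeasurableSpace X] (ν : Measure X) [IsFiniteMeasure ν]
    (I : Type) [Fintype I] (en : (Multiset X → ℂ) → ℝ≥0∞) (u : I → X → ℝ)
    (M P ρ a a₂ N Nhi E R B V : ℝ),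
  (∀ i, Measurable (u i)) → (∀ i x, 0 ≤ u i x) → (∀ i x, u i x ≤ 1) → (∀ x, ∑ i, u i x = 1) →
  (∀ i, ∫ x, u i x ∂ν = M) → 0 < M → 0 ≤ P → 0 < ρ → 0 ≤ a → 0 ≤ a₂ → 0 ≤ N → 0 ≤ E → 0 ≤ R →
  0 ≤ B → 0 < V → V = (ν Set.univ).toReal →
  (∀ F, EB F → ENNReal.ofReal M * nuE ν F ≤
    ∑ i, nE ν (ag ν (u i) F) + ENNReal.ofReal (M * P) * en F) →
  (∀ F, EB F → ENNReal.ofReal M * ∑ i, ∫⁻ γ,
      ENNReal.ofReal (pf (((ms γ).map (u i)).sum / (M * ρ))) * ‖F (ms γ)‖ₑ ^ 2 ∂(lam ν) ≤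
    ENNReal.ofReal a * en F + ENNReal.ofReal (a₂ * V) * nE ν F) →
  HasEns ν en u N Nhi E R B →
  ∃ N' : ℝ, N ≤ N' ∧ N' ≤ Nhi ∧ pf (N' / (ρ * V)) * V ≤ a * E + a₂ * V ∧
    √ρ / 2 * (3 * N' / ρ - 3 * P * E / ρ - a * E - a₂ * V) - Fintype.card I * √R ≤ B

/-! ## D. The upper bound of the energy -/

/-- Jastrow vectors -/
def S_JAS : Prop := ∀ (X : Type) [MeasurableSpace X] (ν : Measure X) [IsFiniteMeasure ν]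
    (Fc : X → X → ℝ) (z : ℝ), 0 < z → Measurable (fun p : X × X => Fc p.1 p.2) →
  (∀ x y, 0 ≤ Fc x y ∧ Fc x y ≤ 1) → (∀ x y, Fc x y = Fc y x) →
  ∃ φ : Multiset X → ℂ, EB φ ∧ nE ν φ = 1 ∧
    (∀ x y, dE ν φ x y ≤ ENNReal.ofReal (z ^ 2) * ∫⁻ u, ENNReal.ofReal ((Fc x u - Fc y u) ^ 2) ∂ν +
      ENNReal.ofReal (z ^ 3) * (∫⁻ u, ENNReal.ofReal |Fc x u - Fc y u| ∂ν) ^ 2) ∧
    (∀ x y, nE ν (an y (an x φ)) ≤ ENNReal.ofReal (z ^ 2 * Fc x y ^ 2)) ∧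
    (∀ x, ENNReal.ofReal (z * (1 - 2 * z * ∫ u, (1 - Fc x u) ∂ν)) ≤ nE ν (an x φ)) ∧
    (∀ x, nE ν (an x φ) ≤ ENNReal.ofReal z)

/-- the upper bound of the energy on the torus -/
def S_UPT : Prop := ∀ (n : ℕ) (μ a : ℝ) (v : ℝ → ℝ≥0∞) (f : (Fin n → ℝ) → ℝ), 1 ≤ n → 0 < μ →
  Measurable v → Measurable f → (∀ z, f (-z) = f z) → (∀ z, 0 ≤ f z ∧ f z ≤ 1) → 1 ≤ a →
  (∀ z, z ∉ cube n a → f z = 1) → QD μ v Set.univ f ≠ ⊤ →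
  ∃ C : ℝ, 0 ≤ C ∧ ∀ (L : ℝ) [Fact (0 < L)] (K : (Fin n → ℝ) → ℝ≥0∞) (κ z : ℝ),
    8 * a ≤ L → Measurable K → 0 ≤ κ → 0 < z → z ≤ 1 →
    ∫⁻ w, K w * ENNReal.ofReal (min 1 (el w ^ 2)) ≤ ENNReal.ofReal κ →
    ∃ φ : Multiset (Tor n L) → ℂ, EB φ ∧ nE volume φ = 1 ∧
      ENNReal.ofReal (z * (1 - C * z) * L ^ n) ≤ nuE volume φ ∧
      nuE volume φ ≤ ENNReal.ofReal (z * L ^ n) ∧
      en (ENNReal.ofReal μ) K v φ ≤ ENNReal.ofReal (z ^ 2 * L ^ n) * QD μ v Set.univ f +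
        ENNReal.ofReal (C * z ^ 2 * (z + κ) * L ^ n)

end

end Pool.Agent.W761.CC
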