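import Pool.Agent.W761.CC.All0
import Pool.Agent.W806.CC.Lay

/-!
# Complete condensation in the continuum: the main theorem
-/

set_option autoImplicit false

namespace Pool.Agent.W761.CC

open Pool.Agent.W761.CB

/-- the main theorem, general form -/
theorem core2_thm : S_CORE2 := by
  have hTF := Pool.Agent.W135.CB.proof_tf
  have hBLK := Pool.Agent.W374.CB2.Blk.blk hTF
  have hFIB := Pool.Agent.W131.CB.fib
  exact core2_of (Pool.Agent.W806.CC.lay Pool.Agent.W366.CC.One.one
    (Pool.Agent.W554.CC.main Pool.Agent.W214.CC.main hTF) (Pool.Agent.W880.CB.po2 hFIB) hFIB hTF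
    hBLK)

end Pool.Agent.W761.CC
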