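import Pool.Agent.W761.CC.Main
import Pool.Agent.W761.CB.All
import Pool.Agent.W612.CC.Cap
import Pool.Agent.W554.CC.Capt
import Pool.Agent.W366.CC.One
import Pool.Agent.W688.CC.CRD
import Pool.Agent.W460.CC.TR
import Pool.Agent.W935.CC.Cvx
import Pool.Agent.W216.CC.Jas
import Pool.Agent.W74.CC.UPT
import Pool.Agent.W377.CC.SYM
import Pool.Agent.W883.CC.GPos
import Pool.Agent.W327.CC.CUT
import Pool.Agent.W975.CC.Poic
import Pool.Agent.W214.CC.Kq

/-!
# Complete condensation in the continuum: the main theorem, up to one part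
-/

set_option autoImplicit false

namespace Pool.Agent.W761.CC

open Pool.Agent.W761.CB

theorem core2_of (hLAY : S_LAY) : S_CORE2 := by
  have hMS := Pool.Agent.W975.CB.proof_ms
  have hLAM := Pool.Agent.W366.CB.proof_lam hMS
  have hEBC := Pool.Agent.W571.CB.La.ebc
  have hAD := Pool.Agent.W338.CB.proof_ad hMS hLAM
  have hW1 := Pool.Agent.W991.CB.proof_w1
  have hW2 := Pool.Agent.W174.CB.main hAD hW1
  have hW3 := Pool.Agent.W803.CB.w3 hW1
  have hDER := Pool.Agent.W99.CB.der hW1 hW3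
  have hMEAS := Pool.Agent.W193.CB.meas hW1 hW2 hW3 hDER Pool.Agent.W803.CB.par
    Pool.Agent.W366.CB.proof_ibp Pool.Agent.W790.CB.proof_win
  have hTF := Pool.Agent.W135.CB.proof_tf
  have hHAT := Pool.Agent.W19.CB.hat_proof hTF
  have hGK := Pool.Agent.W249.CB.gk hTF hHAT Pool.Agent.W249.CB.sup
  have hDIA := Pool.Agent.W427.CB.dia Pool.Agent.W880.CB.dia0 hTF
  have hDE := Pool.Agent.W741.CB.proof_de hTF
  have hFIB := Pool.Agent.W131.CB.fib
  have hPO2 := Pool.Agent.W880.CB.po2 hFIB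
  have hCOH := Pool.Agent.W374.CB2.Coh.coh hTF hHAT hGK hPO2
  have hBLK := Pool.Agent.W374.CB2.Blk.blk hTF
  have hLA1 := Pool.Agent.W372.CB.main hTF hBLK
  have hLA := Pool.Agent.W571.CB.La.proof_la hTF hBLK hLA1 hFIB
  have hKQ := Pool.Agent.W214.CC.main
  have hCUT := Pool.Agent.W327.CC.proof_cut Pool.Agent.W975.CC.main
  exact main_of2 Pool.Agent.W150.CB.proof_step Pool.Agent.W21.CB.main Pool.Agent.W160.CC.bot2'
    hMEAS hHAT Pool.Agent.W816.CB.cb_ref (Pool.Agent.W816.CB.cb_sm hHAT) hGK hDIA hDE hTF hCOH hLA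
    (Pool.Agent.W230.CB.conv hTF) (Pool.Agent.W374.CB2.Lown.lown hTF)
    (Pool.Agent.W880.CB.trial hTF) Pool.Agent.W376.CB.trunc hLAM hEBC hBLK
    Pool.Agent.W753.CB.main Pool.Agent.W883.CC.gpos (Pool.Agent.W612.CC.cap hKQ hCUT)
    (Pool.Agent.W377.CC.sym hKQ) (Pool.Agent.W74.CC.upt Pool.Agent.W216.CC.jas hTF) hLAY
    (Pool.Agent.W688.CC.crd hBLK) Pool.Agent.W460.CC.proof_tr Pool.Agent.W935.CC.cvx

end Pool.Agent.W761.CC
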