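import Pool.Agent.W761.CC.Core
import Pool.Agent.W160.CC.Bot2

/-!
# Complete condensation in the continuum: the conclusion on one torus
-/

set_option autoImplicit false

open MeasureTheory
open scoped ENNReal

namespace Pool.Agent.W761.CC

open Pool.Agent.W761.CB

noncomputable section

theorem pf_bound (r e : ℝ) (he : 0 ≤ e) (he1 : e ≤ 1 / 100)
    (h : pf r ≤ (1 + e) * (2 * r - 1 + e) + e) : |r - 1| ≤ 3 * √e := by
  unfold pf at h
  have hs : √e ^ 2 = e := Real.sq_sqrt he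
  have hs0 : 0 ≤ √e := Real.sqrt_nonneg e
  split_ifs at h with h3
  · have h1 : (r - 1) ^ 2 ≤ (3 * √e) ^ 2 := by
      rw [mul_pow, hs]
      have h2 : (r - 1) ^ 2 ≤ e * (2 * r + 1 + e) := by linarith [h]
      have h4 : e * (2 * r + 1 + e) ≤ e * 9 := by
        apply mul_le_mul_of_nonneg_left _ he
        linarith
      linarith
    have h2 := Real.sqrt_le_sqrt h1
    rwa [Real.sqrt_sq_eq_abs, Real.sqrt_sq (by positivity)] at h2
  · exfalso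
    have h3' : 3 < r := not_le.1 h3
    have h5 : e * r ≤ 1 / 100 * r := mul_le_mul_of_nonneg_right he1 (by linarith)
    have h6 : e * e ≤ 1 / 100 * e := mul_le_mul_of_nonneg_right he1 he
    linarith

theorem triv (hLAM : S_LAM) (hEBC : S_EBC) {X : Type} [MeasurableSpace X] (ν : Measure X)
    [IsFiniteMeasure ν] {I : Type} [Fintype I] (en : (Multiset X → ℂ) → ℝ≥0∞) (u : I → X → ℝ)
    (hu : ∀ i, Measurable (u i)) (hu0 : ∀ i x, 0 ≤ u i x) (hu1 : ∀ i x, u i x ≤ 1)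
    {ψ : Multiset X → ℂ} {N E : ℝ} (hψ : EB ψ) (hψ1 : nE ν ψ = 1)
    (hψN : nuE ν ψ = ENNReal.ofReal N) (hψE : en ψ ≤ ENNReal.ofReal E) :
    ∃ R : ℝ, 0 ≤ R ∧ HasEns ν en u N N E R 0 := by
  have hfin : ∀ i, dev ν (u i) 0 ψ < ⊤ := by
    intro i
    obtain ⟨-, -, hlin, hag, -⟩ := hEBC X ν ψ ψ hψ hψ
    have h1 : EB (ag ν (u i) ψ) := hag (u i) (hu i) ⟨1, fun x => by
      rw [abs_of_nonneg (hu0 i x)]; exact hu1 i x⟩
    have h2 : (fun S => ag ν (u i) ψ S - 0 * ψ S) = ag ν (u i) ψ := by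
      funext S
      rw [zero_mul, sub_zero]
    unfold dev
    rw [h2]
    exact (hLAM X ν).2.2.2.2.1 _ h1
  refine ⟨∑ i, (dev ν (u i) 0 ψ).toReal, Finset.sum_nonneg fun _ _ => ENNReal.toReal_nonneg,
    Unit, inferInstance, fun _ => ψ, fun _ _ => 0, fun _ => hψ, ?_, ?_, ?_, ?_, ?_, ?_⟩
  · rw [tsum_fintype]; simpa using hψ1
  · rw [tsum_fintype]; simp [hψN]
  · rw [tsum_fintype]; simp [hψN]
  · rw [tsum_fintype]; simpa using hψE
  · intro i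
    rw [tsum_fintype]
    simp only [Finset.univ_unique, Finset.sum_const, Finset.card_singleton, one_smul]
    rw [ENNReal.ofReal_sum_of_nonneg fun _ _ => ENNReal.toReal_nonneg]
    refine le_trans (le_of_eq ?_) (Finset.single_le_sum (f := fun i =>
      ENNReal.ofReal (dev ν (u i) 0 ψ).toReal) (fun _ _ => zero_le) (Finset.mem_univ i))
    rw [ENNReal.ofReal_toReal (hfin i).ne]
  · simp

theorem atL (hBOT : Pool.Agent.W160.CC.S_BOT2') (hLAM : S_LAM) (hEBC : S_EBC)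
    (hS : S_STEP) (hB : S_BASE) (hM : S_MEAS) (hH : S_HAT) (hR : S_REF)
    (hSM : S_SM) (hG : S_GK) (hD : S_DIA) (hDE : S_DE) (hTF : S_TF)
    {n J : ℕ} {L ℓ : ℝ} [Fact (0 < L)] (hℓ : 0 < ℓ) (hL : L = 2 ^ J * ℓ) {μ : ℝ≥0∞}
    {K : (Fin n → ℝ) → ℝ≥0∞} {v : ℝ → ℝ≥0∞} (hK : Measurable K) (hv : Measurable v) {v₁ : ℝ}
    (hv0 : 0 ≤ v₁) (hv1 : ∫⁻ z : Fin n → ℝ, v (el z) ≤ ENNReal.ofReal v₁)
    {δ e' N E Q tol : ℝ} (hδ : 0 < δ) (he0 : 0 ≤ e') (hN : 0 ≤ N) (hE : 0 ≤ E) (hQ : 0 ≤ Q)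
    (htol : 0 ≤ tol) (htolE : E + e' - δ * N ≤ tol * L ^ n)
    {ψ : Multiset (Tor n L) → ℂ} (hψ : EB ψ) (hψ1 : nE volume ψ = 1)
    (hψN : nuE volume ψ = ENNReal.ofReal N) (hψE : en μ K v ψ ≤ ENNReal.ofReal E)
    (hψQ : nE volume (ag volume (fun _ => 1) ψ) ≤ ENNReal.ofReal Q)
    (hlow : ∀ F : Multiset (Tor n L) → ℂ, EB F → ENNReal.ofReal δ * nuE volume F ≤
      en μ K v F + ENNReal.ofReal e' * nE volume F)
    {g e r₁ : ℝ} (hg : 0 < g) (he : 0 < e) (he1 : e ≤ 1 / 100) (hr₁ : δ = g * r₁)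
    (hup : E ≤ δ * N - g / 2 * r₁ ^ 2 * (1 - e / 2) * L ^ n)
    {P a a₂ : ℝ} (hP : 0 ≤ P) (hPe : P * δ ≤ e) (ha0 : 0 ≤ a)
    (ha : a ≤ 2 / (g * r₁ ^ 2) * (1 + e)) (ha₂0 : 0 ≤ a₂) (ha₂ : a₂ ≤ e)
    (hcoh : ∀ F : Multiset (Tor n L) → ℂ, EB F → ENNReal.ofReal (ℓ ^ n) * nuE volume F ≤
      ∑ i, nE volume (ag volume (hf n L ℓ (2 ^ J) i) F) +
        ENNReal.ofReal (ℓ ^ n * P) * en μ K v F)
    (hHP : ∀ F : Multiset (Tor n L) → ℂ, EB F → ENNReal.ofReal (ℓ ^ n) *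
      ∑ i, ∫⁻ γ, ENNReal.ofReal (pf (((ms γ).map (hf n L ℓ (2 ^ J) i)).sum / (ℓ ^ n * r₁))) *
        ‖F (ms γ)‖ₑ ^ 2 ∂(lam (volume : Measure (Tor n L))) ≤
      ENNReal.ofReal a * en μ K v F + ENNReal.ofReal (a₂ * L ^ n) * nE volume F)
    {σ Γ X : ℝ} (hΓ : 0 < Γ) (hX0 : 0 ≤ X) (hσ : 0 < σ)
    (hgk : ∀ j : ℕ, 0 < j → j ≤ J → ∀ z : Fin n → ℝ, (∀ c, |z c| ≤ 2 * (2 ^ j * ℓ)) →
      ENNReal.ofReal (Γ * (2 : ℝ) ^ (-((n + σ) * j))) ≤ K z)
    (hX : ∀ j : ℕ, j ≤ J → μ * (∑ c : Fin n, ⨆ k : ℕ, 4 ^ k *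
        ENNReal.ofReal (sm n (2 ^ j * ℓ) (Pi.single c ((2 : ℝ)⁻¹ ^ k)))) +
      2⁻¹ * ∫⁻ z, K z * ENNReal.ofReal (sm n (2 ^ j * ℓ) z) ≤ ENNReal.ofReal X)
    {ω0 lam mu ρ : ℝ} (hω0 : 0 < ω0) (hlam0 : 0 < lam) (hlm : lam ≤ mu) (hmu : mu < 1)
    (hρ : 0 ≤ ρ) (hmuρ : mu = ρ ^ 2) (hlam2 : lam * ((2 : ℝ) ^ n) ^ 2 * mu = 1)
    (hlams : (2 : ℝ) ^ σ * lam = mu)
    {ξ : ℝ} (hξ : ξ = 1 / (ω0 * (ℓ ^ n) ^ 2))
    {N1 A1 es H T q : ℝ} (hN1 : N1 = 2 * r₁ + ω0 / (1 - lam))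
    (hA1 : A1 = 2 * v₁ * N1 + 25 * ω0 * v₁ + X)
    (hes : es = ω0 * A1 / (1 - lam))
    (hHdef : H = √(2 * (ξ + ω0)) + √(ξ + ω0) + √((2 : ℝ) ^ σ * es / (ℓ ^ n * Γ)))
    (hT : T = tol * (2 : ℝ) ^ (σ * J) / (ℓ ^ n * Γ)) (hq : q = (2 : ℝ) ^ (-σ / 2))
    (c2 : es ≤ e / 2 * (g / 2 * r₁ ^ 2))
    (c3 : √(ξ + ω0) + H / (1 - ρ) + √T / (1 - q) ≤ √e * √r₁) :
    |N / L ^ n - r₁| ≤ 3 * √e * r₁ ∧ (1 - 9 * √e) * (N / L ^ n) ≤ Q / (L ^ n) ^ 2 := by
  have hLpos : 0 < L := Fact.out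
  set V : ℝ := L ^ n with hVdef
  have hV : (0 : ℝ) < V := by positivity
  have hM0 : (0 : ℝ) < ℓ ^ n := by positivity
  have hr₁0 : 0 < r₁ := by
    by_contra hcon
    have : g * r₁ ≤ 0 := mul_nonpos_of_nonneg_of_nonpos hg.le (not_lt.1 hcon)
    linarith
  obtain ⟨hvol, -, -, -, -, -, -, -⟩ := hTF n L
  have hVr : V = (volume (Set.univ : Set (Tor n L))).toReal := by
    rw [hvol, ENNReal.toReal_ofReal hV.le]
  obtain ⟨a1, a2, a3, a4, -⟩ := hH n L ℓ (2 ^ J) Nat.one_le_two_pow (by rw [hL]; push_cast; rfl)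
  have hcI : (Fintype.card (Fin n → Fin (2 ^ J)) : ℝ) = V / ℓ ^ n := by
    rw [Fintype.card_fun, Fintype.card_fin, Fintype.card_fin, eq_div_iff (by positivity), hVdef]
    push_cast
    rw [← mul_pow, ← hL]
  set s : ℝ := √e with hs
  have hs0 : 0 ≤ s := Real.sqrt_nonneg e
  have hse : s ^ 2 = e := Real.sq_sqrt he.le
  have hs1 : s ≤ 1 / 10 := by
    rw [hs, show (1 / 10 : ℝ) = √(1 / 100) by
      rw [show (1 / 100 : ℝ) = (1 / 10) ^ 2 by norm_num, Real.sqrt_sq (by norm_num)]]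
    exact Real.sqrt_le_sqrt he1
  -- the use of the energy
  have use : ∀ Et N' : ℝ, 0 ≤ Et → Et ≤ δ * N' - g / 2 * r₁ ^ 2 * (1 - e) * V →
      a * Et + a₂ * V ≤ ((1 + e) * (2 * (N' / (r₁ * V)) - 1 + e) + e) * V := by
    intro Et N' hEt0 hEt
    have h1 : a * Et ≤ 2 / (g * r₁ ^ 2) * (1 + e) * Et := mul_le_mul_of_nonneg_right ha hEt0
    have h2 : 2 / (g * r₁ ^ 2) * (1 + e) * Et ≤
        2 / (g * r₁ ^ 2) * (1 + e) * (δ * N' - g / 2 * r₁ ^ 2 * (1 - e) * V) :=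
      mul_le_mul_of_nonneg_left hEt (by positivity)
    have h3 : 2 / (g * r₁ ^ 2) * (1 + e) * (δ * N' - g / 2 * r₁ ^ 2 * (1 - e) * V) =
        (1 + e) * (2 * (N' / (r₁ * V)) - 1 + e) * V := by
      rw [hr₁]
      field_simp
      ring
    have h4 : a₂ * V ≤ e * V := mul_le_mul_of_nonneg_right ha₂ hV.le
    linarith
  -- the density
  obtain ⟨R0, hR00, hens0⟩ := triv hLAM hEBC (volume : Measure (Tor n L)) (en μ K v)
    (hf n L ℓ (2 ^ J)) (fun i => a1 _) (fun i x => (a2 _ x).1) (fun i x => (a2 _ x).2) hψ hψ1 hψN hψE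
  obtain ⟨N0, hN01, hN02, hN03, -⟩ := hBOT (Tor n L) volume (Fin n → Fin (2 ^ J)) (en μ K v)
    (hf n L ℓ (2 ^ J)) (ℓ ^ n) P r₁ a a₂ N N E R0 0 V (fun i => a1 _) (fun i x => (a2 _ x).1)
    (fun i x => (a2 _ x).2) a3 (fun i => a4 _) hM0 hP hr₁0 ha0 ha₂0 hN hN hE hR00 le_rfl hV hVr hcoh
    hHP hens0
  have hN0 : N0 = N := le_antisymm hN02 hN01
  rw [hN0] at hN03
  have hgr : 0 ≤ g / 2 * r₁ ^ 2 * V := by positivity
  have hup' : E ≤ δ * N - g / 2 * r₁ ^ 2 * (1 - e) * V := by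
    have : g / 2 * r₁ ^ 2 * (1 - e) * V ≤ g / 2 * r₁ ^ 2 * (1 - e / 2) * V := by
      have h9 := mul_nonneg hgr he.le
      linarith only [h9]
    linarith
  have hr0 := pf_bound (N / (r₁ * V)) e he.le he1
    (le_of_mul_le_mul_right (hN03.trans (use E N hE hup')) hV)
  rw [← hs] at hr0
  set r0 : ℝ := N / (r₁ * V) with hr0def
  have hNr0 : N = r0 * r₁ * V := by rw [hr0def]; field_simp
  have hden : N / V = r0 * r₁ := by rw [hNr0]; field_simp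
  rw [abs_le] at hr0
  have hns : N ≤ 2 * r₁ * V := by
    rw [hNr0]
    refine mul_le_mul_of_nonneg_right ?_ hV.le
    exact mul_le_mul_of_nonneg_right (by linarith [hr0.2]) hr₁0.le
  -- the chain
  have hlam1 : lam < 1 := lt_of_le_of_lt hlm hmu
  have h1l : 0 < 1 - lam := by linarith
  have hξ0 : 0 < ξ := by rw [hξ]; positivity
  have hρ1 : ρ < 1 := by
    by_contra h
    have : 1 ≤ ρ ^ 2 := one_le_pow₀ (not_lt.1 h)
    linarith
  have h1ρ : 0 < 1 - ρ := by linarith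
  have hq1 : q < 1 := by
    rw [hq]
    exact Real.rpow_lt_one_of_one_lt_of_neg (by norm_num) (by linarith)
  have h1q : 0 < 1 - q := by linarith
  have hN10 : 0 ≤ N1 := by rw [hN1]; positivity
  have hA10 : 0 ≤ A1 := by rw [hA1]; positivity
  have hes0 : 0 ≤ es := by rw [hes]; positivity
  have hT0 : 0 ≤ T := by rw [hT]; positivity
  have hH0 : 0 ≤ H := by rw [hHdef]; positivity
  have hens := core2 hS hB hM hH hR hSM hG hD hDE hTF hℓ hL hK hv hv0 hv1 hδ.le he0 hN hE hQ htol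
    htolE hψ hψ1 hψN hψE hψQ hlow hΓ hX0 hσ hgk hX (ns := 2 * r₁) hns hω0 hlam0 hlm hmu hρ hmuρ
    hlam2 hlams hξ hN1 hA1 hes hHdef hT hq
  rw [← hVdef] at hens
  obtain ⟨N', h1, h2, h3, h4⟩ := hBOT (Tor n L) volume (Fin n → Fin (2 ^ J)) (en μ K v)
    (hf n L ℓ (2 ^ J)) (ℓ ^ n) P r₁ a a₂ N (N1 * V) (E + es * V) ((ξ + ω0) * (ℓ ^ n) ^ 2)
    ((√(Q / V ^ 2) + H / (1 - ρ) + √T / (1 - q)) * V) V (fun i => a1 _) (fun i x => (a2 _ x).1)
    (fun i x => (a2 _ x).2) a3 (fun i => a4 _) hM0 hP hr₁0 ha0 ha₂0 hN (by positivity)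
    (by positivity) (by positivity) (by positivity) hV hVr hcoh hHP hens
  have hEt : E + es * V ≤ δ * N' - g / 2 * r₁ ^ 2 * (1 - e) * V := by
    have h5 : es * V ≤ e / 2 * (g / 2 * r₁ ^ 2) * V := mul_le_mul_of_nonneg_right c2 hV.le
    have h6 : δ * N ≤ δ * N' := mul_le_mul_of_nonneg_left h1 hδ.le
    linarith
  have hEt0 : 0 ≤ E + es * V := by positivity
  have huse := use (E + es * V) N' hEt0 hEt
  have hr := pf_bound (N' / (r₁ * V)) e he.le he1 (le_of_mul_le_mul_right (h3.trans huse) hV)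
  rw [← hs] at hr
  set r : ℝ := N' / (r₁ * V) with hrdef
  have hNr : N' = r * r₁ * V := by rw [hrdef]; field_simp
  rw [abs_le] at hr
  refine ⟨?_, ?_⟩
  · have h5 : (r0 - 1) * r₁ ≤ 3 * s * r₁ := mul_le_mul_of_nonneg_right hr0.2 hr₁0.le
    have h6 : -(3 * s) * r₁ ≤ (r0 - 1) * r₁ := mul_le_mul_of_nonneg_right hr0.1 hr₁0.le
    rw [hden, abs_le]
    constructor <;> linarith only [h5, h6]
  · rw [hcI, Real.sqrt_mul' _ (by positivity), Real.sqrt_sq hM0.le] at h4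
    set ac : ℝ := Q / V ^ 2 with hac
    have hac0 : 0 ≤ ac := by positivity
    have e1 : V / ℓ ^ n * (√(ξ + ω0) * ℓ ^ n) = √(ξ + ω0) * V := by field_simp
    rw [e1] at h4
    have hN'0 : 0 ≤ N' := hN.trans h1
    have hPE : P * (E + es * V) ≤ e * N' := by
      have h5 : E + es * V ≤ δ * N' := by
        have : 0 ≤ g / 2 * r₁ ^ 2 * (1 - e) * V := by
          have : 0 ≤ 1 - e := by linarith
          positivity
        linarith
      calc P * (E + es * V) ≤ P * (δ * N') := mul_le_mul_of_nonneg_left h5 hP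
        _ = P * δ * N' := by ring
        _ ≤ e * N' := mul_le_mul_of_nonneg_right hPe hN'0
    have h5 : 3 * P * (E + es * V) / r₁ ≤ 3 * e * r * V := by
      rw [div_le_iff₀ hr₁0]
      calc 3 * P * (E + es * V) = 3 * (P * (E + es * V)) := by ring
        _ ≤ 3 * (e * N') := by linarith
        _ = 3 * e * r * V * r₁ := by rw [hNr]; ring
    have h6 : 3 * N' / r₁ = 3 * r * V := by rw [hNr]; field_simp
    have h7 : (2 - 19 / 5 * s) * V ≤
        3 * N' / r₁ - 3 * P * (E + es * V) / r₁ - a * (E + es * V) - a₂ * V := by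
      have h8 : (2 - 19 / 5 * s) ≤ r + 1 - 5 * e * r - e - e ^ 2 := by
        have h9 : e * r ≤ s / 10 * (13 / 10) := by
          have : e ≤ s / 10 := by
            rw [← hse]
            have := mul_le_mul_of_nonneg_left hs1 hs0
            linarith only [this]
          exact mul_le_mul this (by linarith [hr.2]) (by
            have := hr.1
            linarith) (by positivity)
        have h10 : e ≤ s / 10 := by
          rw [← hse]
          have := mul_le_mul_of_nonneg_left hs1 hs0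
          linarith only [this]
        have h11 : e ^ 2 ≤ s / 100 := by
          have := mul_le_mul he1 h10 he.le (by norm_num)
          rw [sq]
          refine this.trans ?_
          linarith
        linarith [hr.1]
      have h12 := mul_le_mul_of_nonneg_right h8 hV.le
      linarith
    have hsr : 0 ≤ √r₁ := Real.sqrt_nonneg _
    have h8 : √r₁ / 2 * ((2 - 19 / 5 * s) * V) - √(ξ + ω0) * V ≤
        (√ac + H / (1 - ρ) + √T / (1 - q)) * V :=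
      le_trans (sub_le_sub_right (mul_le_mul_of_nonneg_left h7 (by positivity)) _) h4
    have h9 : (√r₁ * (1 - 19 / 10 * s) - √(ξ + ω0)) * V ≤
        (√ac + H / (1 - ρ) + √T / (1 - q)) * V := by linarith
    have h10 := le_of_mul_le_mul_right h9 hV
    have h11 : √r₁ * (1 - 29 / 10 * s) ≤ √ac := by linarith
    have h12 : 0 ≤ 1 - 29 / 10 * s := by linarith
    have h13 : (√r₁ * (1 - 29 / 10 * s)) ^ 2 ≤ ac := by
      have := pow_le_pow_left₀ (by positivity) h11 2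
      rwa [Real.sq_sqrt hac0] at this
    rw [mul_pow, Real.sq_sqrt hr₁0.le] at h13
    rw [hden]
    refine le_trans ?_ h13
    have h14 : (1 - 9 * s) * r0 ≤ (1 - 29 / 10 * s) ^ 2 := by
      have h15 : (1 - 9 * s) * r0 ≤ (1 - 9 * s) * (1 + 3 * s) :=
        mul_le_mul_of_nonneg_left (by linarith [hr0.2]) (by linarith)
      have h16 := mul_nonneg hs0 hs0
      linarith only [h15, h16, hs0]
    calc (1 - 9 * s) * (r0 * r₁) = (1 - 9 * s) * r0 * r₁ := by ring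
      _ ≤ (1 - 29 / 10 * s) ^ 2 * r₁ := mul_le_mul_of_nonneg_right h14 hr₁0.le
      _ = _ := by ring

end

end Pool.Agent.W761.CC
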