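import Pool.Agent.W761.CB.Stms

/-!
# Complete condensation in the continuum: definitions
-/

set_option autoImplicit false

open MeasureTheory
open scoped ENNReal

namespace Pool.Agent.W761.CC

open Pool.Agent.W761.CB

noncomputable section

/-! ### Functions on `ℝ^n`: the scattering energy -/

/-- `h^(-2) ∫ |f(z + h e_c) - f(z)|² dz` over the `z` with `z, z + h e_c ∈ D`, where `h = 2^(-k)` -/
def gk {n : ℕ} (D : Set (Fin n → ℝ)) (c : Fin n) (k : ℕ) (f : (Fin n → ℝ) → ℝ) : ℝ≥0∞ :=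
  4 ^ k * ∫⁻ z in {z | z ∈ D ∧ z + Pi.single c ((2 : ℝ)⁻¹ ^ k) ∈ D},
    ENNReal.ofReal ((f (z + Pi.single c ((2 : ℝ)⁻¹ ^ k)) - f z) ^ 2)

/-- `∫_D |∇ f|²` -/
def gr {n : ℕ} (D : Set (Fin n → ℝ)) (f : (Fin n → ℝ) → ℝ) : ℝ≥0∞ := ∑ c, ⨆ k, gk D c k f

/-- `μ ∫_D |∇ f|² + (1/2) ∫_D v f²` -/
def QD {n : ℕ} (μ : ℝ) (v : ℝ → ℝ≥0∞) (D : Set (Fin n → ℝ)) (f : (Fin n → ℝ) → ℝ) : ℝ≥0∞ :=
  ENNReal.ofReal μ * gr D f + 2⁻¹ * ∫⁻ z in D, v (el z) * ENNReal.ofReal (f z ^ 2)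

/-- bounded measurable functions -/
structure BM {n : ℕ} (f : (Fin n → ℝ) → ℝ) : Prop where
  meas : Measurable f
  bdd : ∃ B : ℝ, ∀ z, |f z| ≤ B

/-- bounded measurable functions which are equal to `1` outside a bounded set -/
structure Adm {n : ℕ} (f : (Fin n → ℝ) → ℝ) : Prop extends BM f where
  out : ∃ a : ℝ, ∀ z, z ∉ cube n a → f z = 1

/-- the scattering constant: twice the infimum of `μ ∫ |∇ f|² + (1/2) ∫ v f²` over the functions
which are equal to `1` outside a bounded set (for `n = 3`: `8 π μ` times the scattering length) -/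
def scat (n : ℕ) (μ : ℝ) (v : ℝ → ℝ≥0∞) : ℝ :=
  2 * (⨅ f ∈ {f : (Fin n → ℝ) → ℝ | Adm f}, QD μ v Set.univ f).toReal

/-- the scattering inequality in the cube of radius `r`, with the constant `γ₀` -/
def Cap (n : ℕ) (μ : ℝ) (v : ℝ → ℝ≥0∞) (γ₀ r : ℝ) : Prop :=
  ∀ f : (Fin n → ℝ) → ℝ, BM f →
    ENNReal.ofReal (γ₀ * (((2 * r) ^ n)⁻¹ * ∫ z in cube n r, f z) ^ 2) ≤ QD μ v (cube n r) f

/-- the cut off of `u`: equal to `u` in the cube of radius `r / 2`, and to `1` outside the cube of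
radius `r` -/
def cutf {n : ℕ} (r : ℝ) (u : (Fin n → ℝ) → ℝ) (x : Fin n → ℝ) : ℝ :=
  1 + max 0 (min 1 (2 - 2 * ‖x‖ / r)) * (u x - 1)

/-! ### Blocks -/

section general
variable {X : Type} [MeasurableSpace X] (ν : Measure X)

/-- the average of the annihilation operators over `B` -/
def av (B : Set X) (F : Multiset X → ℂ) : Multiset X → ℂ :=
  fun S => ((ν B).toReal : ℂ)⁻¹ * ∫ x in B, F (x ::ₘ S) ∂ν

/-- the depletion in `B` -/
def dp (B : Set X) (F : Multiset X → ℂ) : ℝ≥0∞ :=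
  ∫⁻ x in B, nE ν (fun S => F (x ::ₘ S) - av ν B F S) ∂ν

open Classical in
/-- the points of `S` in `D` which have no other point of `S` in `B` near them (`near y y` holds) -/
def iso (B D : Set X) (near : X → X → Prop) (S : Multiset X) : Multiset X :=
  S.filter fun y => y ∈ D ∧ Multiset.card (S.filter fun y' => y' ∈ B ∧ near y y') ≤ 1

end general

/-- translation by `a` -/
def tra {X : Type} [Sub X] (a : X) (F : Multiset X → ℂ) : Multiset X → ℂ :=
  fun S => F (S.map fun x => x - a)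

/-- a convex function with `pf 1 = 1` and `√t ≥ (3 t - pf t) / 2` -/
def pf (t : ℝ) : ℝ := if t ≤ 3 then t ^ 2 else 6 * t - 9

end

end Pool.Agent.W761.CC
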