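import Pool.Agent.W761.CC.Stms
import Pool.Agent.W761.CB.Chain
import Pool.Agent.W571.CB.La

/-!
# Complete condensation in the continuum: the energy controls the numbers of particles
-/

set_option autoImplicit false

open MeasureTheory
open scoped ENNReal

namespace Pool.Agent.W761.CC

open Pool.Agent.W761.CB

noncomputable section

theorem pf_le_sq (t : ℝ) : pf t ≤ t ^ 2 := by
  unfold pf
  split_ifs
  · exact le_rfl
  · nlinarith [sq_nonneg (t - 3)]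

theorem pf_le_lin (t : ℝ) (ht : 0 ≤ t) : pf t ≤ 6 * t := by
  unfold pf
  split_ifs with h
  · nlinarith
  · linarith

theorem en_mono {n : ℕ} {L : ℝ} [Fact (0 < L)] (μ : ℝ≥0∞) (K : (Fin n → ℝ) → ℝ≥0∞)
    (v : ℝ → ℝ≥0∞) (F : Multiset (Tor n L) → ℂ) :
    en μ (fun _ => 0) v F ≤ en μ K v F := by
  unfold en ken Hp
  gcongr
  simp

theorem ken_le_en {n : ℕ} {L : ℝ} [Fact (0 < L)] (μ : ℝ≥0∞) (K : (Fin n → ℝ) → ℝ≥0∞)
    (v : ℝ → ℝ≥0∞) (F : Multiset (Tor n L) → ℂ) : ken μ K F ≤ en μ K v F := le_self_add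

theorem hp_core (hLAY : S_LAY) (hCRD : S_CRD) (hTR : S_TR) (hCVX : S_CVX) (hTF : S_TF)
    (hBLK : S_BLK)
    {n : ℕ} (hn : 1 ≤ n) {L μ γ₀ ε r ρ CP CA ℓ b b₁ : ℝ} [Fact (0 < L)] {J s s₁ : ℕ}
    {K : (Fin n → ℝ) → ℝ≥0∞} {v : ℝ → ℝ≥0∞} (hK : Measurable K) (hv : Measurable v)
    (hμ : 0 < μ) (hγ₀ : 0 < γ₀) (hcap : Cap n μ v γ₀ r)
    (hPO : PO n L 2 CP (ENNReal.ofReal μ) (fun _ => 0)) (hCP : 0 ≤ CP) (hCA : 0 ≤ CA)
    (hε : 0 < ε) (hε1 : ε < 1) (hr : 0 < r) (hrb : 4 * r ≤ b) (hb : 1 ≤ b) (hb₁ : 0 < b₁)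
    (hρ : 0 < ρ) (hJ : 1 ≤ J) (hL : L = 2 ^ J * ℓ) (hℓ : ℓ = 2 ^ s * b) (hbb : b = 2 ^ s₁ * b₁)
    (hla : ∀ F : Multiset (Tor n L) → ℂ, EB F →
      ∑ i : Fin n → Fin (2 ^ J * 2 ^ s * 2 ^ s₁), ∫⁻ γ,
        ((cnt (blk n L b₁ (fun c => (i c : ℕ))) (ms γ) - 1 : ℕ) : ℝ≥0∞) *
        ‖F (ms γ)‖ₑ ^ 2 ∂(lam (volume : Measure (Tor n L))) ≤
          ENNReal.ofReal (CA * b₁ ^ n) * en (ENNReal.ofReal μ) K v F)
    {κ X' Y' : ℝ} (hκ : κ = 2 * (2 ^ s₁) ^ n)
    (hX' : X' = γ₀ * (5 * κ ^ 2 / b ^ n + κ / (ε * (2 * r) ^ n)) * (CP * b ^ 2))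
    (hY' : Y' = γ₀ * (L ^ n / b ^ n) * (κ / b ^ n + κ ^ 2 / b ^ n *
      (4 * n * r / b + 2 * κ * (4 * r / b) ^ n)))
    (F : Multiset (Tor n L) → ℂ) (hF : EB F) :
    ENNReal.ofReal (ℓ ^ n) *
      ∑ i, ∫⁻ γ, ENNReal.ofReal (pf (((ms γ).map (hf n L ℓ (2 ^ J) i)).sum / (ℓ ^ n * ρ))) *
        ‖F (ms γ)‖ₑ ^ 2 ∂(lam (volume : Measure (Tor n L))) ≤
      ENNReal.ofReal ((1 + X') / (γ₀ * (1 - ε) * ρ ^ 2) + 12 * (CA * b₁ ^ n) / ρ) *
        en (ENNReal.ofReal μ) K v F +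
      ENNReal.ofReal (Y' / (γ₀ * (1 - ε) * ρ ^ 2)) * nE volume F := by
  have hb0 : 0 < b := by linarith
  have hbn : 0 < b ^ n := by positivity
  have hℓ0 : 0 < ℓ := by rw [hℓ]; positivity
  have hℓn : 0 < ℓ ^ n := by positivity
  have hLpos : 0 < L := Fact.out
  have h1ε : 0 < 1 - ε := by linarith
  have hκ0 : 0 ≤ κ := by rw [hκ]; positivity
  have hX'0 : 0 ≤ X' := by rw [hX']; positivity
  have hY'0 : 0 ≤ Y' := by rw [hY']; positivity
  have hq1 : 1 ≤ 2 ^ J * 2 ^ s := Nat.one_le_iff_ne_zero.2 (by positivity)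
  have hLb : L = (2 ^ J * 2 ^ s : ℕ) * b := by
    push_cast
    rw [hL, hℓ]; ring
  have hLb₁ : L = (2 ^ J * 2 ^ s * 2 ^ s₁ : ℕ) * b₁ := by
    push_cast
    rw [hL, hℓ, hbb]; ring
  have hbM : ((2 ^ s₁ : ℕ) : ℝ) * b₁ = b := by push_cast; rw [hbb]
  have hℓM : ((2 ^ s : ℕ) : ℝ) * b = ℓ := by push_cast; rw [hℓ]
  set κn : ℕ := 2 * (2 ^ s₁) ^ n with hκn
  have hκr : κ = (κn : ℝ) := by rw [hκ, hκn]; push_cast; ring
  set A : ℝ := (1 + X') / (γ₀ * (1 - ε) * ρ ^ 2) + 12 * (CA * b₁ ^ n) / ρ with hA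
  set B : ℝ := Y' / (γ₀ * (1 - ε) * ρ ^ 2) with hB
  obtain ⟨bm, -⟩ := hBLK n L b (2 ^ J * 2 ^ s) hq1 hLb
  -- the bound for one translation
  have main : ∀ G : Multiset (Tor n L) → ℂ, EB G →
      ENNReal.ofReal (b ^ n) * ∑ k : Fin n → Fin (2 ^ J * 2 ^ s), ∫⁻ γ,
        ENNReal.ofReal (pf (cnt (blk n L b (fun c => (k c : ℕ))) (ms γ) / (b ^ n * ρ))) *
          ‖G (ms γ)‖ₑ ^ 2 ∂(lam (volume : Measure (Tor n L))) ≤
      ENNReal.ofReal A * en (ENNReal.ofReal μ) K v G + ENNReal.ofReal B * nE volume G := by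
    intro G hG
    have hq2 : 2 ≤ 2 ^ J * 2 ^ s := by
      calc 2 = 2 ^ 1 * 1 := rfl
        _ ≤ 2 ^ J * 2 ^ s := Nat.mul_le_mul (Nat.pow_le_pow_right (by norm_num) hJ)
            Nat.one_le_two_pow
    have lay := hLAY n L b r μ γ₀ ε CP v (2 ^ J * 2 ^ s) κn hn hμ hv hγ₀.le hcap hPO hCP hε hε1.le
      hr hrb hb hq2 hLb G hG
    rw [← hκr, ← hX', ← hY'] at lay
    have crd := hCRD n L b₁ (2 ^ J * 2 ^ s) (2 ^ s₁) _ hq1 Nat.one_le_two_pow hLb₁ G hG (hla G hG)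
    rw [hbM] at crd
    set S2 : ℝ≥0∞ := ∑ i : Fin n → Fin (2 ^ J * 2 ^ s), ∫⁻ γ,
      (if cnt (blk n L b (fun c => (i c : ℕ))) (ms γ) ≤ κn then
        (cnt (blk n L b (fun c => (i c : ℕ))) (ms γ) : ℝ≥0∞) ^ 2 else 0) * ‖G (ms γ)‖ₑ ^ 2
        ∂(lam (volume : Measure (Tor n L))) with hS2
    set Sc : ℝ≥0∞ := ∑ i : Fin n → Fin (2 ^ J * 2 ^ s), ∫⁻ γ,
      (if cnt (blk n L b (fun c => (i c : ℕ))) (ms γ) ≤ κn then 0 else
        (cnt (blk n L b (fun c => (i c : ℕ))) (ms γ) : ℝ≥0∞)) * ‖G (ms γ)‖ₑ ^ 2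
        ∂(lam (volume : Measure (Tor n L))) with hSc
    have step1 : ENNReal.ofReal (b ^ n) * ∑ k : Fin n → Fin (2 ^ J * 2 ^ s), ∫⁻ γ,
        ENNReal.ofReal (pf (cnt (blk n L b (fun c => (k c : ℕ))) (ms γ) / (b ^ n * ρ))) *
          ‖G (ms γ)‖ₑ ^ 2 ∂(lam (volume : Measure (Tor n L))) ≤
        ENNReal.ofReal (1 / (b ^ n * ρ ^ 2)) * S2 + ENNReal.ofReal (6 / ρ) * Sc := by
      rw [hS2, hSc, Finset.mul_sum, Finset.mul_sum, Finset.mul_sum, ← Finset.sum_add_distrib]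
      refine Finset.sum_le_sum fun k _ => ?_
      rw [← lintegral_const_mul' _ _ ENNReal.ofReal_ne_top,
        ← lintegral_const_mul' _ _ ENNReal.ofReal_ne_top,
        ← lintegral_const_mul' _ _ ENNReal.ofReal_ne_top, ← lintegral_add_left]
      · refine lintegral_mono fun γ => ?_
        simp only
        set c : ℕ := cnt (blk n L b (fun c => (k c : ℕ))) (ms γ) with hc
        rw [← mul_assoc, ← mul_assoc, ← mul_assoc, ← add_mul]
        refine mul_le_mul_left ?_ _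
        rw [← ENNReal.ofReal_mul (by positivity)]
        have hc0 : (0 : ℝ) ≤ c := Nat.cast_nonneg c
        have hcast : (c : ℝ≥0∞) = ENNReal.ofReal c := (ENNReal.ofReal_natCast c).symm
        split_ifs with hcκ
        · rw [mul_zero, add_zero, hcast, ← ENNReal.ofReal_pow hc0,
            ← ENNReal.ofReal_mul (by positivity)]
          apply ENNReal.ofReal_le_ofReal
          calc b ^ n * pf (c / (b ^ n * ρ)) ≤ b ^ n * (c / (b ^ n * ρ)) ^ 2 :=
                mul_le_mul_of_nonneg_left (pf_le_sq _) hbn.le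
            _ = 1 / (b ^ n * ρ ^ 2) * c ^ 2 := by field_simp
        · rw [mul_zero, zero_add, hcast, ← ENNReal.ofReal_mul (by positivity)]
          apply ENNReal.ofReal_le_ofReal
          calc b ^ n * pf (c / (b ^ n * ρ)) ≤ b ^ n * (6 * (c / (b ^ n * ρ))) :=
                mul_le_mul_of_nonneg_left (pf_le_lin _ (by positivity)) hbn.le
            _ = 6 / ρ * c := by field_simp
      · refine Measurable.const_mul (Measurable.mul ?_ ?_) _
        · have hm := Pool.Agent.W571.CB.La.meas_cnt (blk n L b (fun c => (k c : ℕ))) (bm _)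
          refine Measurable.ite (measurableSet_le hm measurable_const) ?_ measurable_const
          exact ((Measurable.of_discrete (f := fun m : ℕ => (m : ℝ≥0∞))).comp hm).pow_const 2
        · exact hG.meas.enorm.pow_const 2
    have step2 : ENNReal.ofReal (1 / (b ^ n * ρ ^ 2)) * S2 ≤
        ENNReal.ofReal ((1 + X') / (γ₀ * (1 - ε) * ρ ^ 2)) * en (ENNReal.ofReal μ) K v G +
          ENNReal.ofReal B * nE volume G := by
      have e1 : ENNReal.ofReal (1 / (b ^ n * ρ ^ 2)) = ENNReal.ofReal (1 / (γ₀ * (1 - ε) * ρ ^ 2)) *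
          ENNReal.ofReal (γ₀ * (1 - ε) / b ^ n) := by
        rw [← ENNReal.ofReal_mul (by positivity)]
        congr 1
        field_simp
      rw [e1, mul_assoc]
      have h0 := en_mono (ENNReal.ofReal μ) K v G
      have h1 := (ken_le_en (ENNReal.ofReal μ) (fun _ => 0) v G).trans h0
      calc ENNReal.ofReal (1 / (γ₀ * (1 - ε) * ρ ^ 2)) *
            (ENNReal.ofReal (γ₀ * (1 - ε) / b ^ n) * S2)
          ≤ ENNReal.ofReal (1 / (γ₀ * (1 - ε) * ρ ^ 2)) *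
            (en (ENNReal.ofReal μ) K v G + ENNReal.ofReal Y' * nE volume G +
              ENNReal.ofReal X' * en (ENNReal.ofReal μ) K v G) := by
            refine mul_le_mul_right (lay.trans ?_) _
            gcongr
        _ = _ := by
            have e2 : en (ENNReal.ofReal μ) K v G + ENNReal.ofReal Y' * nE volume G +
                ENNReal.ofReal X' * en (ENNReal.ofReal μ) K v G =
                ENNReal.ofReal (1 + X') * en (ENNReal.ofReal μ) K v G +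
                  ENNReal.ofReal Y' * nE volume G := by
              rw [ENNReal.ofReal_add zero_le_one hX'0, ENNReal.ofReal_one]
              ring
            rw [e2, mul_add, ← mul_assoc, ← mul_assoc, ← ENNReal.ofReal_mul (by positivity),
              ← ENNReal.ofReal_mul (by positivity), hB]
            congr 3
            · rw [one_div_mul_eq_div]
            · rw [one_div_mul_eq_div]
    have step3 : ENNReal.ofReal (6 / ρ) * Sc ≤
        ENNReal.ofReal (12 * (CA * b₁ ^ n) / ρ) * en (ENNReal.ofReal μ) K v G := by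
      refine (mul_le_mul_right crd _).trans (le_of_eq ?_)
      have e2 : (2 : ℝ≥0∞) = ENNReal.ofReal 2 := by norm_num
      rw [e2, ← mul_assoc, ← mul_assoc, ← ENNReal.ofReal_mul (by positivity),
        ← ENNReal.ofReal_mul (by positivity)]
      congr 2
      ring
    refine step1.trans ((add_le_add step2 step3).trans (le_of_eq ?_))
    rw [hA, ENNReal.ofReal_add (by positivity) (by positivity)]
    ring
  -- the average over the translations
  have cvx := hCVX n L b ρ (2 ^ J) (2 ^ s) Nat.one_le_two_pow Nat.one_le_two_pow hLb hρ F hF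
  rw [hℓM] at cvx
  refine cvx.trans ?_
  have hbound : ∀ t : Fin n → ℝ, ENNReal.ofReal (b ^ n) * ∑ k : Fin n → Fin (2 ^ J * 2 ^ s), ∫⁻ γ,
      ENNReal.ofReal (pf (cnt (blk n L b (fun c => (k c : ℕ))) (ms γ) / (b ^ n * ρ))) *
        ‖tra (pr L t) F (ms γ)‖ₑ ^ 2 ∂(lam (volume : Measure (Tor n L))) ≤
      ENNReal.ofReal A * en (ENNReal.ofReal μ) K v F + ENNReal.ofReal B * nE volume F := by
    intro t
    obtain ⟨t1, t2, -, -, t5⟩ := hTR n L (ENNReal.ofReal μ) K v (pr L t) F hK hv hF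
    have := main (tra (pr L t) F) t1
    rwa [t2, t5] at this
  calc ENNReal.ofReal ((ℓ ^ n)⁻¹) * ∫⁻ t in {t : Fin n → ℝ | ∀ c, 0 ≤ t c ∧ t c < ℓ},
        ENNReal.ofReal (b ^ n) * ∑ k : Fin n → Fin (2 ^ J * 2 ^ s), ∫⁻ γ,
        ENNReal.ofReal (pf (cnt (blk n L b (fun c => (k c : ℕ))) (ms γ) / (b ^ n * ρ))) *
        ‖tra (pr L t) F (ms γ)‖ₑ ^ 2 ∂(lam (volume : Measure (Tor n L)))
      ≤ ENNReal.ofReal ((ℓ ^ n)⁻¹) * ∫⁻ _t in {t : Fin n → ℝ | ∀ c, 0 ≤ t c ∧ t c < ℓ},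
        (ENNReal.ofReal A * en (ENNReal.ofReal μ) K v F + ENNReal.ofReal B * nE volume F) :=
        mul_le_mul_right (lintegral_mono fun t => hbound t) _
    _ = ENNReal.ofReal A * en (ENNReal.ofReal μ) K v F + ENNReal.ofReal B * nE volume F := by
        rw [setLIntegral_const]
        have hset : {t : Fin n → ℝ | ∀ c, 0 ≤ t c ∧ t c < ℓ} =
            Set.pi Set.univ fun _ => Set.Ico 0 ℓ := by
          ext t
          simp [Set.mem_pi]
        have hvol : volume {t : Fin n → ℝ | ∀ c, 0 ≤ t c ∧ t c < ℓ} = ENNReal.ofReal (ℓ ^ n) := by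
          rw [hset, volume_pi_pi]
          simp only [Real.volume_Ico, sub_zero, Finset.prod_const, Finset.card_univ,
            Fintype.card_fin]
          rw [ENNReal.ofReal_pow hℓ0.le]
        rw [hvol, mul_comm (ENNReal.ofReal ((ℓ ^ n)⁻¹)), mul_assoc,
          ← ENNReal.ofReal_mul hℓn.le, mul_inv_cancel₀ hℓn.ne', ENNReal.ofReal_one, mul_one]

end

end Pool.Agent.W761.CC
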