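import Pool.Agent.W761.CB.Par

/-!
# Complete condensation in the continuum: choice of the block sides
-/

set_option autoImplicit false

namespace Pool.Agent.W761.CC

open Pool.Agent.W761.CB

theorem hpar (n : ℕ) (hn : 3 ≤ n) (G γ₀ ε e CP CA b₀ r₀ lam0 : ℝ) (hG : 0 < G) (he : 0 < e)
    (he1 : e ≤ 1 / 100) (hε : ε = e / 20) (hγ : γ₀ = G / 2 * (1 - ε)) (hCP : 0 < CP)
    (hCA : 0 < CA) (hb₀ : 1 ≤ b₀) (hr₀ : 1 ≤ r₀) (hl : 0 < lam0) :
    ∃ δ₁ : ℝ, 0 < δ₁ ∧ ∀ δ : ℝ, 0 < δ → δ ≤ δ₁ → ∀ ℓ : ℝ, lam0 * δ ^ (-(1 / 2 : ℝ)) / 2 ≤ ℓ →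
    ∃ (s s₁ : ℕ) (b b₁ r : ℝ), ℓ = 2 ^ s * b ∧ b = 2 ^ s₁ * b₁ ∧ r₀ ≤ r ∧ 4 * r ≤ b ∧ 1 ≤ b ∧
      b₀ ≤ b₁ ∧ ∀ κ X' : ℝ, κ = 2 * (2 ^ s₁) ^ n →
      X' = γ₀ * (5 * κ ^ 2 / b ^ n + κ / (ε * (2 * r) ^ n)) * (CP * b ^ 2) →
      (1 + X') / (γ₀ * (1 - ε) * (δ / G) ^ 2) + 12 * (CA * b₁ ^ n) / (δ / G) ≤
        2 / (G * (δ / G) ^ 2) * (1 + e) ∧
      γ₀ * (1 / b ^ n) * (κ / b ^ n + κ ^ 2 / b ^ n * (4 * n * r / b + 2 * κ * (4 * r / b) ^ n)) /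
        (γ₀ * (1 - ε) * (δ / G) ^ 2) ≤ e := by
  have hn0 : (3 : ℝ) ≤ n := by exact_mod_cast hn
  have hε0 : 0 < ε := by rw [hε]; positivity
  have hε1 : ε ≤ 1 / 2000 := by rw [hε]; linarith
  have h1ε : 0 < 1 - ε := by linarith
  have hγ0 : 0 < γ₀ := by rw [hγ]; positivity
  have h2n : (1 : ℝ) < 2 ^ n := one_lt_pow₀ (by norm_num) (by omega)
  have h2n0 : (0 : ℝ) < 2 ^ n := by positivity
  -- constants
  set A₀ : ℝ := min 1 (e / (24 * (G * CA))) with hA₀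
  have hA₀0 : 0 < A₀ := lt_min one_pos (by positivity)
  have hA₀1 : A₀ ≤ 1 := min_le_left _ _
  have hA₀e : A₀ ≤ e / (24 * (G * CA)) := min_le_right _ _
  set A₁ : ℝ := A₀ / 2 ^ n with hA₁
  have hA₁0 : 0 < A₁ := by positivity
  set D₀ : ℝ := max 1 (32 / (A₁ * e)) with hD₀
  have hD₀1 : 1 ≤ D₀ := le_max_left _ _
  have hD₀e : 32 / (A₁ * e) ≤ D₀ := le_max_right _ _
  have hD₀0 : 0 < D₀ := by linarith
  set θ : ℝ := min (1 / 4) (min (A₁ ^ 2 * e / (256 * n)) (A₁ ^ 3 * e / (1024 * (2 ^ n * D₀)))) with hθ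
  have hθ0 : 0 < θ := lt_min (by norm_num) (lt_min (by positivity) (by positivity))
  have hθ1 : θ ≤ 1 / 4 := min_le_left _ _
  have hθ2 : θ ≤ A₁ ^ 2 * e / (256 * n) := (min_le_right _ _).trans (min_le_left _ _)
  have hθ3 : θ ≤ A₁ ^ 3 * e / (1024 * (2 ^ n * D₀)) := (min_le_right _ _).trans (min_le_right _ _)
  set κm : ℝ := 2 * (2 ^ n * D₀ / A₁) with hκm
  have hκm0 : 0 < κm := by positivity
  set C₀ : ℝ := γ₀ * (5 * κm ^ 2 + κm / (ε * (2 * θ) ^ n)) * CP with hC₀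
  have hC₀0 : 0 < C₀ := by positivity
  set B : ℝ := max 1 (max (8 * C₀ / e) (r₀ / θ)) with hB
  have hB1 : 1 ≤ B := le_max_left _ _
  have hB2 : 8 * C₀ / e ≤ B := (le_max_left _ _).trans (le_max_right _ _)
  have hB3 : r₀ / θ ≤ B := (le_max_right _ _).trans (le_max_right _ _)
  have hB0 : 0 < B := by linarith
  obtain ⟨δa, hδa, Qa⟩ := sp ((n : ℝ) / 2 - 1) (D₀ * G * (2 / lam0) ^ n) 1 (by linarith)
    (by positivity) one_pos
  refine ⟨min δa (min (D₀ * G / B ^ n) (A₁ * G / b₀ ^ n)), lt_min hδa (lt_min (by positivity)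
    (by positivity)), ?_⟩
  intro δ hδ hδle ℓ hℓ
  have hδ1 : δ ≤ δa := hδle.trans (min_le_left _ _)
  have hδ2 : δ ≤ D₀ * G / B ^ n := (hδle.trans (min_le_right _ _)).trans (min_le_left _ _)
  have hδ3 : δ ≤ A₁ * G / b₀ ^ n := (hδle.trans (min_le_right _ _)).trans (min_le_right _ _)
  have Ra := Qa δ hδ.le hδ1
  set ρ : ℝ := δ / G with hρ
  have hρ0 : 0 < ρ := by positivity
  have hℓ0 : 0 < ℓ := lt_of_lt_of_le (by positivity) hℓ
  -- the number of particles in the smallest box is large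
  have hbig : 1 ≤ ρ * ℓ ^ n / D₀ := by
    rw [one_le_div hD₀0]
    have e1 : (lam0 * δ ^ (-(1 / 2 : ℝ)) / 2) ^ n = (lam0 / 2) ^ n * δ ^ (-((n : ℝ) / 2)) := by
      rw [mul_div_right_comm, mul_pow, ← Real.rpow_natCast (δ ^ (-(1 / 2 : ℝ))),
        ← Real.rpow_mul hδ.le]
      congr 2
      ring
    have e2 : (lam0 * δ ^ (-(1 / 2 : ℝ)) / 2) ^ n ≤ ℓ ^ n := pow_le_pow_left₀ (by positivity) hℓ n
    have e3 : δ ^ ((n : ℝ) / 2 - 1) * (δ * δ ^ (-((n : ℝ) / 2))) = 1 := by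
      nth_rewrite 2 [← Real.rpow_one δ]
      rw [← Real.rpow_add hδ, ← Real.rpow_add hδ]
      rw [show (n : ℝ) / 2 - 1 + (1 + -((n : ℝ) / 2)) = 0 by ring, Real.rpow_zero]
    have e4 : (2 / lam0) ^ n * (lam0 / 2) ^ n = 1 := by
      rw [← mul_pow, show 2 / lam0 * (lam0 / 2) = 1 by field_simp, one_pow]
    rw [e1] at e2
    calc D₀ = D₀ * ((2 / lam0) ^ n * (lam0 / 2) ^ n) *
          (δ ^ ((n : ℝ) / 2 - 1) * (δ * δ ^ (-((n : ℝ) / 2)))) := by rw [e3, e4]; ring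
      _ = (D₀ * G * (2 / lam0) ^ n * δ ^ ((n : ℝ) / 2 - 1)) *
          (ρ * ((lam0 / 2) ^ n * δ ^ (-((n : ℝ) / 2)))) := by
          rw [hρ]
          field_simp
      _ ≤ 1 * (ρ * ((lam0 / 2) ^ n * δ ^ (-((n : ℝ) / 2)))) := by gcongr
      _ = ρ * ((lam0 / 2) ^ n * δ ^ (-((n : ℝ) / 2))) := one_mul _
      _ ≤ ρ * ℓ ^ n := by gcongr
  obtain ⟨s, hs1, hs2⟩ := near ((2 : ℝ) ^ n) _ h2n hbig
  set b : ℝ := ℓ / 2 ^ s with hb
  have hb0 : 0 < b := by positivity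
  have hbn : b ^ n = ℓ ^ n / (2 ^ n) ^ s := by
    rw [hb, div_pow, ← pow_mul, ← pow_mul, mul_comm]
  set D : ℝ := ρ * b ^ n with hD
  have hD0 : 0 < D := by positivity
  have hDlo : D₀ ≤ D := by
    rw [hD, hbn, mul_div_assoc', le_div_iff₀ (by positivity)]
    rw [le_div_iff₀ hD₀0] at hs1
    linarith
  have hDhi : D ≤ 2 ^ n * D₀ := by
    rw [hD, hbn, mul_div_assoc', div_le_iff₀ (by positivity)]
    rw [div_lt_iff₀ hD₀0, pow_succ] at hs2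
    linarith
  have hDA : 1 ≤ D / A₀ := by
    rw [one_le_div hA₀0]
    linarith
  obtain ⟨k, hk1, hk2⟩ := near ((2 : ℝ) ^ n) _ h2n hDA
  set b₁ : ℝ := b / 2 ^ (k + 1) with hb₁
  have hb₁0 : 0 < b₁ := by positivity
  have hb₁n : b₁ ^ n = b ^ n / (2 ^ n) ^ (k + 1) := by
    rw [hb₁, div_pow, ← pow_mul, ← pow_mul, mul_comm]
  set A : ℝ := ρ * b₁ ^ n with hA
  have hA0 : 0 < A := by positivity
  have hAhi : A ≤ A₀ := by
    rw [hA, hb₁n, mul_div_assoc', ← hD, div_le_iff₀ (by positivity)]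
    rw [div_lt_iff₀ hA₀0] at hk2
    linarith
  have hAlo : A₁ ≤ A := by
    rw [hA₁, hA, hb₁n, mul_div_assoc', ← hD, div_le_div_iff₀ (by positivity) (by positivity),
      pow_succ]
    rw [le_div_iff₀ hA₀0] at hk1
    have := mul_le_mul_of_nonneg_right hk1 h2n0.le
    linarith
  have hbB : B ≤ b := by
    have h1 : B ^ n ≤ b ^ n := by
      rw [le_div_iff₀ (by positivity)] at hδ2
      have h2 : ρ * B ^ n ≤ ρ * b ^ n := by
        rw [← hD]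
        refine le_trans ?_ hDlo
        rw [hρ, div_mul_eq_mul_div, div_le_iff₀ hG]
        exact hδ2
      exact le_of_mul_le_mul_left h2 hρ0
    exact le_of_pow_le_pow_left₀ (by omega) hb0.le h1
  have hb₀b : b₀ ≤ b₁ := by
    have h1 : b₀ ^ n ≤ b₁ ^ n := by
      rw [le_div_iff₀ (by positivity)] at hδ3
      have h2 : ρ * b₀ ^ n ≤ ρ * b₁ ^ n := by
        rw [← hA]
        refine le_trans ?_ hAlo
        rw [hρ, div_mul_eq_mul_div, div_le_iff₀ hG]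
        exact hδ3
      exact le_of_mul_le_mul_left h2 hρ0
    exact le_of_pow_le_pow_left₀ (by omega) hb₁0.le h1
  have hb1 : 1 ≤ b := hB1.trans hbB
  refine ⟨s, k + 1, b, b₁, θ * b, by rw [hb]; field_simp, by rw [hb₁]; field_simp, ?_, ?_, hb1,
    hb₀b, ?_⟩
  · have h1 := hB3.trans hbB
    rw [div_le_iff₀ hθ0] at h1
    linarith
  · have := mul_le_mul_of_nonneg_right hθ1 hb0.le
    linarith
  intro κ X' hκ hX'
  have hκ0 : 0 < κ := by rw [hκ]; positivity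
  have hκDA : κ = 2 * D / A := by
    rw [hκ, hA, hb₁n, hD, ← pow_mul, mul_comm (k + 1) n, pow_mul]
    field_simp
  have hκle : κ ≤ κm := by
    rw [hκDA, hκm, mul_div_assoc]
    gcongr
  -- the bound of `X'`
  have hbpow : b ^ 2 / b ^ n ≤ 1 / b := by
    rw [div_le_div_iff₀ (by positivity) hb0, one_mul, ← pow_succ]
    exact pow_le_pow_right₀ hb1 (by omega)
  have hX'0 : 0 ≤ X' := by rw [hX']; positivity
  have hX'le : X' ≤ e / 8 := by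
    calc X' = γ₀ * (5 * κ ^ 2 + κ / (ε * (2 * θ) ^ n)) * CP * (b ^ 2 / b ^ n) := by
          rw [hX', ← mul_assoc 2 θ b, mul_pow (2 * θ) b n]
          field_simp
      _ ≤ C₀ * (1 / b) := by
          rw [hC₀]
          gcongr
      _ ≤ C₀ * (1 / (8 * C₀ / e)) := by
          have : 8 * C₀ / e ≤ b := hB2.trans hbB
          gcongr
      _ = e / 8 := by field_simp
  have hc : 1 / (1 - ε) ^ 2 ≤ 1 + 3 * ε := by
    rw [div_le_iff₀ (by positivity)]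
    nlinarith [hε0, hε1, sq_nonneg ε, mul_pos hε0 hε0, mul_pos (mul_pos hε0 hε0) hε0]
  constructor
  · have h1 : (1 + X') / (γ₀ * (1 - ε) * ρ ^ 2) + 12 * (CA * b₁ ^ n) / ρ =
        2 / (G * ρ ^ 2) * ((1 + X') * (1 / (1 - ε) ^ 2) + 6 * (G * CA) * A) := by
      rw [hγ, hA]
      field_simp
      ring
    rw [h1]
    have h2 : 6 * (G * CA) * A ≤ e / 4 := by
      calc 6 * (G * CA) * A ≤ 6 * (G * CA) * (e / (24 * (G * CA))) := by
            gcongr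
            exact hAhi.trans hA₀e
        _ = e / 4 := by field_simp; norm_num
    have h3 : (1 + X') * (1 / (1 - ε) ^ 2) ≤ (1 + e / 8) * (1 + 3 * ε) := by gcongr
    have h4 : (1 + e / 8) * (1 + 3 * ε) + e / 4 ≤ 1 + e := by
      rw [hε]
      nlinarith [he, he1]
    have h5 : 0 ≤ 2 / (G * ρ ^ 2) := by positivity
    exact mul_le_mul_of_nonneg_left (by linarith) h5
  · have hn1 : (4 * θ) ^ n ≤ 4 * θ := by
      calc (4 * θ) ^ n ≤ (4 * θ) ^ 1 :=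
            pow_le_pow_of_le_one (by positivity) (by linarith) (by omega)
        _ = 4 * θ := pow_one _
    have h1 : γ₀ * (1 / b ^ n) * (κ / b ^ n + κ ^ 2 / b ^ n *
        (4 * n * (θ * b) / b + 2 * κ * (4 * (θ * b) / b) ^ n)) / (γ₀ * (1 - ε) * ρ ^ 2) =
        1 / (1 - ε) * (2 / (A * D) + 16 * n * θ / A ^ 2 + 16 * D * (4 * θ) ^ n / A ^ 3) := by
      have e1 : 4 * (n : ℝ) * (θ * b) / b = 4 * n * θ := by field_simp
      have e2 : 4 * (θ * b) / b = 4 * θ := by field_simp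
      rw [e1, e2]
      have e3 : γ₀ * (1 / b ^ n) * (κ / b ^ n + κ ^ 2 / b ^ n *
          (4 * n * θ + 2 * κ * (4 * θ) ^ n)) / (γ₀ * (1 - ε) * ρ ^ 2) =
          1 / (1 - ε) * ((κ + κ ^ 2 * (4 * n * θ + 2 * κ * (4 * θ) ^ n)) / D ^ 2) := by
        rw [hD]
        field_simp
      rw [e3, hκDA]
      field_simp
      ring
    rw [h1]
    have t1 : 2 / (A * D) ≤ e / 16 := by
      calc 2 / (A * D) ≤ 2 / (A₁ * D₀) := by gcongr
        _ ≤ 2 / (A₁ * (32 / (A₁ * e))) := by gcongr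
        _ = e / 16 := by field_simp; norm_num
    have t2 : 16 * n * θ / A ^ 2 ≤ e / 16 := by
      calc 16 * n * θ / A ^ 2 ≤ 16 * n * (A₁ ^ 2 * e / (256 * n)) / A₁ ^ 2 := by gcongr
        _ = e / 16 := by field_simp; norm_num
    have t3 : 16 * D * (4 * θ) ^ n / A ^ 3 ≤ e / 16 := by
      calc 16 * D * (4 * θ) ^ n / A ^ 3 ≤ 16 * (2 ^ n * D₀) *
            (4 * (A₁ ^ 3 * e / (1024 * (2 ^ n * D₀)))) / A₁ ^ 3 := by
            gcongr
            exact hn1.trans (by linarith)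
        _ = e / 16 := by field_simp; norm_num
    have h2 : 1 / (1 - ε) ≤ 2 := by
      rw [div_le_iff₀ h1ε]
      linarith
    calc 1 / (1 - ε) * (2 / (A * D) + 16 * n * θ / A ^ 2 + 16 * D * (4 * θ) ^ n / A ^ 3)
        ≤ 2 * (e / 16 + e / 16 + e / 16) := by gcongr
      _ ≤ e := by linarith

end Pool.Agent.W761.CC
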