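import Pool.Agent.W761.CC.LayS

/-!
# Complete condensation in the continuum: the lower bound of the energy from its parts
-/

set_option autoImplicit false

open MeasureTheory
open scoped ENNReal

namespace Pool.Agent.W761.CC

open Pool.Agent.W761.CB

theorem lay_of (hLB : S_LB) (hLD : S_LD) (hLG : S_LG) (hLE : S_LE) (hBLK : S_BLK) : S_LAY := by
  intro n L b r μ γ₀ ε CP _ v q κ hn hμ hv hγ hcap hPO hCP hε hε1 hr hrb hb1 hq hL F hF
  have hLpos : 0 < L := Fact.out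
  have hb0 : 0 < b := by linarith
  have hbn : 0 < b ^ n := by positivity
  have hq1 : 1 ≤ q := by omega
  obtain ⟨g1, g2, g3, g4, g5, g6, -⟩ := hLG n L b r q hn hq hL hr hrb
  obtain ⟨b1, -⟩ := hBLK n L b q hq1 hL
  set E1 : ℝ := κ / b ^ n + κ ^ 2 / b ^ n * (4 * n * r / b + 2 * κ * (4 * r / b) ^ n) with hE1
  set E2 : ℝ := 5 * κ ^ 2 / b ^ n + κ / (ε * (2 * r) ^ n) with hE2
  have hE10 : 0 ≤ E1 := by rw [hE1]; positivity
  have hE20 : 0 ≤ E2 := by rw [hE2]; positivity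
  have h1ε : 0 ≤ 1 - ε := by linarith
  have hE1' : (κ : ℝ) / b ^ n + κ ^ 2 / (b ^ n) ^ 2 * (2 * (2 * n * r * b ^ (n - 1)) +
      2 * (4 * r) ^ n * κ) = E1 := by
    rw [hE1]
    obtain ⟨m, rfl⟩ : ∃ m, n = m + 1 := ⟨n - 1, by omega⟩
    rw [Nat.add_sub_cancel, div_pow]
    push_cast
    field_simp
    ring
  -- one block
  have one : ∀ i : Fin n → Fin q,
      ENNReal.ofReal ((1 - ε) / b ^ n) * ∫⁻ γ,
        (if cnt (blk n L b (fun c => (i c : ℕ))) (ms γ) ≤ κ then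
        (cnt (blk n L b (fun c => (i c : ℕ))) (ms γ) : ℝ≥0∞) ^ 2 else 0) * ‖F (ms γ)‖ₑ ^ 2
        ∂(lam (volume : Measure (Tor n L))) ≤
      ENNReal.ofReal E1 * nE volume F +
      ENNReal.ofReal E2 * dp volume (blk n L b (fun c => (i c : ℕ))) F +
      ∫⁻ γ, ((iso (blk n L b (fun c => (i c : ℕ)))
        (blk n L b (fun c => (i c : ℕ)) \ bdr n L b r (fun c => (i c : ℕ))) (nr r) (ms γ)).map
          fun y => ‖av volume (Cr r y) F (ms γ)‖ₑ ^ 2).sum ∂(lam (volume : Measure (Tor n L))) := by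
    intro i
    have h := hLB (Tor n L) volume (blk n L b (fun c => (i c : ℕ)))
      (bdr n L b r (fun c => (i c : ℕ))) (nr r) (Cr r) κ (b ^ n) ((2 * r) ^ n) ((4 * r) ^ n)
      (2 * n * r * b ^ (n - 1)) ε F (b1 _) (g2 i).1 g3 g4 hbn (g1 i) (fun y hy => hy.1)
      (by positivity) (g2 i).2 (fun x c => by rw [sub_self, norm_zero]; positivity)
      (fun x y h c => by rw [← norm_neg, neg_sub]; exact h c) (by positivity)
      (fun y _ => (measure_mono fun y' hy' => hy'.2).trans (g5 y)) (by positivity)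
      (fun y hy hyb => ⟨by
        by_contra hcon
        exact hyb ⟨hy, hcon⟩, g6 y⟩) hε hε1 hF
    rw [hE1'] at h
    exact h
  have hcard : ((Fintype.card (Fin n → Fin q) : ℕ) : ℝ≥0∞) = ENNReal.ofReal (L ^ n / b ^ n) := by
    rw [Fintype.card_fun, Fintype.card_fin, Fintype.card_fin, ← ENNReal.ofReal_natCast]
    congr 1
    rw [eq_div_iff hbn.ne']
    push_cast
    rw [← mul_pow, ← hL]
  have hsum := Finset.sum_le_sum fun (i : Fin n → Fin q) (_ : i ∈ Finset.univ) => one i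
  rw [← Finset.mul_sum, Finset.sum_add_distrib, Finset.sum_add_distrib, Finset.sum_const,
    Finset.card_univ, nsmul_eq_mul, hcard, ← Finset.mul_sum] at hsum
  have hLD' := hLD n L b μ CP q hn hμ hCP hPO hb1 hq1 hL F hF
  have hLE' := hLE n L b r μ γ₀ v q hn hμ hv hγ hcap hq hL hr hrb F hF
  have e0 : ENNReal.ofReal (γ₀ * (1 - ε) / b ^ n) =
      ENNReal.ofReal γ₀ * ENNReal.ofReal ((1 - ε) / b ^ n) := by
    rw [← ENNReal.ofReal_mul hγ, mul_div_assoc]
  rw [e0, mul_assoc]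
  refine (mul_le_mul_right hsum _).trans ?_
  rw [mul_add, mul_add]
  have t1 : ENNReal.ofReal γ₀ * (ENNReal.ofReal (L ^ n / b ^ n) *
      (ENNReal.ofReal E1 * nE volume F)) =
      ENNReal.ofReal (γ₀ * (L ^ n / b ^ n) * E1) * nE volume F := by
    rw [ENNReal.ofReal_mul (by positivity), ENNReal.ofReal_mul hγ]
    ring
  have t2 : ENNReal.ofReal γ₀ * (ENNReal.ofReal E2 *
      ∑ i : Fin n → Fin q, dp volume (blk n L b (fun c => (i c : ℕ))) F) ≤
      ENNReal.ofReal (γ₀ * E2 * (CP * b ^ 2)) * ken (ENNReal.ofReal μ) (fun _ => 0) F := by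
    rw [ENNReal.ofReal_mul (by positivity), ENNReal.ofReal_mul hγ, mul_assoc, mul_assoc]
    gcongr
  rw [t1]
  calc ENNReal.ofReal (γ₀ * (L ^ n / b ^ n) * E1) * nE volume F +
        ENNReal.ofReal γ₀ * (ENNReal.ofReal E2 *
          ∑ i : Fin n → Fin q, dp volume (blk n L b (fun c => (i c : ℕ))) F) +
        ENNReal.ofReal γ₀ * ∑ i : Fin n → Fin q, ∫⁻ γ,
        ((iso (blk n L b (fun c => (i c : ℕ)))
        (blk n L b (fun c => (i c : ℕ)) \ bdr n L b r (fun c => (i c : ℕ))) (nr r) (ms γ)).map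
          fun y => ‖av volume (Cr r y) F (ms γ)‖ₑ ^ 2).sum ∂(lam (volume : Measure (Tor n L)))
      ≤ ENNReal.ofReal (γ₀ * (L ^ n / b ^ n) * E1) * nE volume F +
        ENNReal.ofReal (γ₀ * E2 * (CP * b ^ 2)) * ken (ENNReal.ofReal μ) (fun _ => 0) F +
        en (ENNReal.ofReal μ) (fun _ => 0) v F := add_le_add (add_le_add le_rfl t2) hLE'
    _ = _ := by ring

end Pool.Agent.W761.CC
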