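import Pool.Agent.W761.CC.Stms

/-!
# Complete condensation in the continuum: the parts of the lower bound of the energy
-/

set_option autoImplicit false

open MeasureTheory
open scoped ENNReal

namespace Pool.Agent.W761.CC

open Pool.Agent.W761.CB

noncomputable section

/-- near points -/
def nr {n : ℕ} {L : ℝ} (r : ℝ) (y y' : Tor n L) : Prop := ∀ c, ‖y c - y' c‖ ≤ 2 * r

/-- the cube around `y` -/
def Cr {n : ℕ} {L : ℝ} (r : ℝ) (y : Tor n L) : Set (Tor n L) := {y' | ∃ z ∈ cube n r, y' = y + pr L z}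

/-- the points of the block whose cubes are not inside the block -/
def bdr (n : ℕ) (L b r : ℝ) (i : Fin n → ℕ) : Set (Tor n L) :=
  {y | y ∈ blk n L b i ∧ ¬ Cr r y ⊆ blk n L b i}

/-- one block -/
def S_LB : Prop := ∀ (X : Type) [MeasurableSpace X] (ν : Measure X) [IsFiniteMeasure ν]
    (B bd : Set X) (near : X → X → Prop) (Cb : X → Set X) (κ : ℕ) (b q ν' β ε : ℝ)
    (F : Multiset X → ℂ), MeasurableSet B → MeasurableSet bd →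
  MeasurableSet {p : X × X | near p.1 p.2} → MeasurableSet {p : X × X | p.2 ∈ Cb p.1} →
  0 < b → ν B = ENNReal.ofReal b → bd ⊆ B → 0 ≤ β → ν bd ≤ ENNReal.ofReal β →
  (∀ x, near x x) → (∀ x y, near x y → near y x) → 0 ≤ ν' →
  (∀ y ∈ B, ν {y' | y' ∈ B ∧ near y y'} ≤ ENNReal.ofReal ν') → 0 < q →
  (∀ y ∈ B, y ∉ bd → Cb y ⊆ B ∧ ν (Cb y) = ENNReal.ofReal q) → 0 < ε → ε ≤ 1 → EB F →
  ENNReal.ofReal ((1 - ε) / b) * ∫⁻ γ, (if cnt B (ms γ) ≤ κ then (cnt B (ms γ) : ℝ≥0∞) ^ 2 else 0) *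
      ‖F (ms γ)‖ₑ ^ 2 ∂(lam ν) ≤
    ENNReal.ofReal (κ / b + κ ^ 2 / b ^ 2 * (2 * β + 2 * ν' * κ)) * nE ν F +
    ENNReal.ofReal (5 * κ ^ 2 / b + κ / (ε * q)) * dp ν B F +
    ∫⁻ γ, ((iso B (B \ bd) near (ms γ)).map fun y => ‖av ν (Cb y) F (ms γ)‖ₑ ^ 2).sum ∂(lam ν)

/-- the depletions of the blocks -/
def S_LD : Prop := ∀ (n : ℕ) (L b μ CP : ℝ) [Fact (0 < L)] (q : ℕ), 1 ≤ n → 0 < μ → 0 ≤ CP →
  PO n L 2 CP (ENNReal.ofReal μ) (fun _ => 0) → 1 ≤ b → 1 ≤ q → L = q * b →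
  ∀ F : Multiset (Tor n L) → ℂ, EB F →
    ∑ i : Fin n → Fin q, dp volume (blk n L b (fun c => (i c : ℕ))) F ≤
      ENNReal.ofReal (CP * b ^ 2) * ken (ENNReal.ofReal μ) (fun _ => 0) F

/-- geometry -/
def S_LG : Prop := ∀ (n : ℕ) (L b r : ℝ) [Fact (0 < L)] (q : ℕ), 1 ≤ n → 2 ≤ q → L = q * b →
  0 < r → 4 * r ≤ b →
  (∀ i : Fin n → Fin q, volume (blk n L b (fun c => (i c : ℕ))) = ENNReal.ofReal (b ^ n)) ∧
  (∀ i : Fin n → Fin q, MeasurableSet (bdr n L b r (fun c => (i c : ℕ))) ∧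
    volume (bdr n L b r (fun c => (i c : ℕ))) ≤ ENNReal.ofReal (2 * n * r * b ^ (n - 1))) ∧
  MeasurableSet {p : Tor n L × Tor n L | nr r p.1 p.2} ∧
  MeasurableSet {p : Tor n L × Tor n L | p.2 ∈ Cr r p.1} ∧
  (∀ y : Tor n L, volume {y' : Tor n L | nr r y y'} ≤ ENNReal.ofReal ((4 * r) ^ n)) ∧
  (∀ y : Tor n L, volume (Cr r y) = ENNReal.ofReal ((2 * r) ^ n)) ∧
  ∀ (f : Tor n L → ℂ) (y : Tor n L), Measurable f → (∃ B : ℝ, ∀ x, ‖f x‖ ≤ B) →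
    ∫ x in Cr r y, f x = ∫ z in cube n r, f (y + pr L z)

/-- the energy and the averages over the cubes around isolated particles -/
def S_LE : Prop := ∀ (n : ℕ) (L b r μ γ₀ : ℝ) [Fact (0 < L)] (v : ℝ → ℝ≥0∞) (q : ℕ), 1 ≤ n →
  0 < μ → Measurable v → 0 ≤ γ₀ → Cap n μ v γ₀ r → 2 ≤ q → L = q * b → 0 < r → 4 * r ≤ b →
  ∀ F : Multiset (Tor n L) → ℂ, EB F →
    ENNReal.ofReal γ₀ * ∑ i : Fin n → Fin q, ∫⁻ γ,
      ((iso (blk n L b (fun c => (i c : ℕ)))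
        (blk n L b (fun c => (i c : ℕ)) \ bdr n L b r (fun c => (i c : ℕ))) (nr r) (ms γ)).map
          fun y => ‖av volume (Cr r y) F (ms γ)‖ₑ ^ 2).sum ∂(lam (volume : Measure (Tor n L))) ≤
    en (ENNReal.ofReal μ) (fun _ => 0) v F

end

end Pool.Agent.W761.CC
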