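import Pool.Agent.W761.CC.AtL
import Pool.Agent.W761.CC.HP
import Pool.Agent.W761.CC.HPar
import Pool.Agent.W761.CC.Par2
import Pool.Agent.W761.CB.Main

/-!
# Complete condensation in the continuum: the main theorem from the parts
-/

set_option autoImplicit false

open MeasureTheory
open scoped ENNReal

namespace Pool.Agent.W761.CC

open Pool.Agent.W761.CB

noncomputable section

/-- The main theorem, general form. -/
def S_CORE2 : Prop := ∀ (n : ℕ) (μ σ g τ c : ℝ) (v : ℝ → ℝ≥0∞), 3 ≤ n → 0 < μ → 0 < σ →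
  σ < 2 * n → g + 1 < n → 0 < τ → 0 < c → Measurable v →
  ∫⁻ z : Fin n → ℝ, v (el z) ≠ 0 → ∫⁻ z : Fin n → ℝ, v (el z) ≠ ⊤ →
  0 < scat n μ v ∧ ∀ ε : ℝ, 0 < ε → ∃ δ₀ : ℝ, 0 < δ₀ ∧ ∀ δ : ℝ, 0 < δ → δ ≤ δ₀ →
    ∃ c₁ L₀ : ℝ, 0 < c₁ ∧
    ∀ (L : ℝ) [Fact (0 < L)] (K : (Fin n → ℝ) → ℝ≥0∞), L₀ ≤ L → Measurable K →
    ∫⁻ z, K z * ENNReal.ofReal (min 1 (el z ^ 2)) ≤ ENNReal.ofReal δ₀ →
    ∫⁻ z, K z * ENNReal.ofReal (min 1 (δ * el z ^ 2)) ≤ ENNReal.ofReal (τ * δ) →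
    (∀ z, ENNReal.ofReal (c * δ ^ (g + n / 2) * (1 + √δ * el z) ^ (-(n + σ))) ≤ K z) →
    (∃ C : ℝ, ∀ (N : ℕ) (Φ : (Fin N → Tor n L) → ℂ), IsWf Φ →
      ENNReal.ofReal (δ * N) ≤ enN (ENNReal.ofReal μ) K v Φ + ENNReal.ofReal C) ∧
    ∀ (N : ℕ) (Ψ : (Fin N → Tor n L) → ℂ), IsWf2 Ψ →
      (∀ (N' : ℕ) (Φ : (Fin N' → Tor n L) → ℂ), IsWf Φ →
        enN (ENNReal.ofReal μ) K v Ψ + ENNReal.ofReal (δ * N') ≤
          enN (ENNReal.ofReal μ) K v Φ + ENNReal.ofReal (δ * N + c₁ * L ^ (n - σ))) →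
      |N / L ^ n - δ / scat n μ v| ≤ ε * (δ / scat n μ v) ∧ (1 - ε) * N ≤ condN Ψ

theorem upper {n : ℕ} {L μ δ G e C κ tol N E z e' : ℝ} [Fact (0 < L)]
    {K : (Fin n → ℝ) → ℝ≥0∞} {v : ℝ → ℝ≥0∞} {f : (Fin n → ℝ) → ℝ} {φ : Multiset (Tor n L) → ℂ}
    (hφ : EB φ) (hφ1 : nE volume φ = 1)
    (hφN : ENNReal.ofReal (z * (1 - C * z) * L ^ n) ≤ nuE volume φ)
    (hφE : en (ENNReal.ofReal μ) K v φ ≤ ENNReal.ofReal (z ^ 2 * L ^ n) * QD μ v Set.univ f +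
        ENNReal.ofReal (C * z ^ 2 * (z + κ) * L ^ n))
    (hQ : QD μ v Set.univ f ≤ ENNReal.ofReal (G / 2 + G * e / 16))
    (hlow : ∀ F : Multiset (Tor n L) → ℂ, EB F → ENNReal.ofReal δ * nuE volume F ≤
      en (ENNReal.ofReal μ) K v F + ENNReal.ofReal e' * nE volume F)
    (he' : e' = δ * N + tol * L ^ n - E) (he'0 : 0 ≤ e') (hG : 0 < G) (he : 0 < e)
    (hC : 0 ≤ C) (hκ : 0 ≤ κ) (hz : 0 < z) (hδ : δ = G * z)
    (h1 : (G + 1) * C * z ≤ G * e / 16) (h2 : C * κ ≤ G * e / 16)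
    (h3 : tol ≤ G * e / 16 * z ^ 2) :
    E ≤ δ * N - G / 2 * z ^ 2 * (1 - e / 2) * L ^ n := by
  have hLpos : 0 < L := Fact.out
  have hV : 0 < L ^ n := by positivity
  have hδ0 : 0 < δ := by rw [hδ]; positivity
  have a1 := hlow φ hφ
  rw [hφ1, mul_one] at a1
  have a2 : ENNReal.ofReal δ * ENNReal.ofReal (z * (1 - C * z) * L ^ n) ≤
      ENNReal.ofReal (z ^ 2 * L ^ n) * ENNReal.ofReal (G / 2 + G * e / 16) +
        ENNReal.ofReal (C * z ^ 2 * (z + κ) * L ^ n) + ENNReal.ofReal e' := by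
    calc ENNReal.ofReal δ * ENNReal.ofReal (z * (1 - C * z) * L ^ n)
        ≤ ENNReal.ofReal δ * nuE volume φ := mul_le_mul_right hφN _
      _ ≤ en (ENNReal.ofReal μ) K v φ + ENNReal.ofReal e' := a1
      _ ≤ ENNReal.ofReal (z ^ 2 * L ^ n) * QD μ v Set.univ f +
        ENNReal.ofReal (C * z ^ 2 * (z + κ) * L ^ n) + ENNReal.ofReal e' := by gcongr
      _ ≤ _ := by gcongr
  rw [← ENNReal.ofReal_mul hδ0.le, ← ENNReal.ofReal_mul (by positivity),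
    ← ENNReal.ofReal_add (by positivity) (by positivity),
    ← ENNReal.ofReal_add (by positivity) he'0, ENNReal.ofReal_le_ofReal_iff (by positivity)] at a2
  have hz2 : 0 < z ^ 2 * L ^ n := by positivity
  have b1 : z ^ 2 * L ^ n * ((G + 1) * C * z) ≤ z ^ 2 * L ^ n * (G * e / 16) :=
    mul_le_mul_of_nonneg_left h1 hz2.le
  have b2 : z ^ 2 * L ^ n * (C * κ) ≤ z ^ 2 * L ^ n * (G * e / 16) :=
    mul_le_mul_of_nonneg_left h2 hz2.le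
  have b3 : tol * L ^ n ≤ G * e / 16 * z ^ 2 * L ^ n := mul_le_mul_of_nonneg_right h3 hV.le
  rw [he'] at a2
  have e1 : δ * (z * (1 - C * z) * L ^ n) = z ^ 2 * L ^ n * G - z ^ 2 * L ^ n * (G * C * z) := by
    rw [hδ]; ring
  rw [e1] at a2
  have e2 : C * z ^ 2 * (z + κ) * L ^ n = z ^ 2 * L ^ n * (C * z) + z ^ 2 * L ^ n * (C * κ) := by
    ring
  rw [e2] at a2
  have e3 : z ^ 2 * L ^ n * ((G + 1) * C * z) =
      z ^ 2 * L ^ n * (G * C * z) + z ^ 2 * L ^ n * (C * z) := by ring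
  rw [e3] at b1
  linarith only [a2, b1, b2, b3]

theorem main_of2 (hS : S_STEP) (hB : S_BASE) (hBOT : Pool.Agent.W160.CC.S_BOT2') (hM : S_MEAS)
    (hH : S_HAT) (hR : S_REF) (hSM : S_SM) (hG : S_GK) (hD : S_DIA) (hDE : S_DE) (hTF : S_TF)
    (hCOH : S_COH) (hLA : S_LA) (hCONV : S_CONV) (hLOWN : S_LOWN) (hTRIAL : S_TRIAL)
    (hTRUNC : S_TRUNC) (hLAM : S_LAM) (hEBC : S_EBC) (hBLK : S_BLK) (hTRANS : S_TRANS)
    (hGPOS : S_GPOS) (hCAP : S_CAP) (hSYM : S_SYM) (hUPT : S_UPT) (hLAY : S_LAY) (hCRD : S_CRD)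
    (hTR : S_TR) (hCVX : S_CVX) : S_CORE2 := by
  intro n μ σ g τ c v hn hμ hσ hσn hgn hτ hc hv hv0 hvt
  have hn1 : 1 ≤ n := by omega
  have hn3 : (3 : ℝ) ≤ n := by exact_mod_cast hn
  set v₁ : ℝ := (∫⁻ z : Fin n → ℝ, v (el z)).toReal with hv₁
  have hv₁0 : 0 < v₁ := ENNReal.toReal_pos hv0 hvt
  have hv1 : ∫⁻ z : Fin n → ℝ, v (el z) ≤ ENNReal.ofReal v₁ := by
    rw [hv₁, ENNReal.ofReal_toReal hvt]
  have hG0 : 0 < scat n μ v := hGPOS n μ v hn hμ hv hv0 hvt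
  refine ⟨hG0, fun ε hε => ?_⟩
  have hcap0 := hCAP n μ v hn1 hμ hv hvt hG0
  have hsym0 := hSYM n μ v hv hvt
  set G : ℝ := scat n μ v with hGdef
  set e : ℝ := min (1 / 100) ((ε / 9) ^ 2) with he
  have he0 : 0 < e := lt_min (by norm_num) (by positivity)
  have he1 : e ≤ 1 / 100 := min_le_left _ _
  have he9 : 9 * √e ≤ ε := by
    have h1 : √e ≤ ε / 9 := by
      rw [Real.sqrt_le_left (by positivity)]
      exact min_le_right _ _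
    linarith
  have hse0 : 0 ≤ √e := Real.sqrt_nonneg e
  obtain ⟨εc, hεc⟩ : ∃ εc : ℝ, εc = e / 20 := ⟨_, rfl⟩
  have hεc0 : 0 < εc := by rw [hεc]; positivity
  have hεc1 : εc < 1 := by rw [hεc]; linarith
  obtain ⟨r₀, hr₀, hcap⟩ := hcap0 εc hεc0 hεc1
  obtain ⟨γ₀, hγ₀⟩ : ∃ γ₀ : ℝ, γ₀ = G / 2 * (1 - εc) := ⟨_, rfl⟩
  rw [← hγ₀] at hcap
  have hγ₀0 : 0 < γ₀ := by
    have : 0 < 1 - εc := by linarith
    rw [hγ₀]; positivity
  obtain ⟨CP, hCPd⟩ : ∃ CP : ℝ, CP = n * 2 ^ n / μ := ⟨_, rfl⟩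
  have hCP : 0 < CP := by rw [hCPd]; positivity
  obtain ⟨CA0, b₀, hCA0, hb₀, hla⟩ := hLA n 2 CP v hn1 two_pos (by linarith) hCP.le hv hv0
  set CA : ℝ := CA0 + 1 with hCA
  have hCApos : 0 < CA := by rw [hCA]; linarith
  obtain ⟨lam, mu, ρ, q, hlam0, hlm, hmu1, hρ0, hmuρ, hlam2, hlams, hq, lam0, δp, η4, hl00, hl01,
    hδp, hη4, hpar2⟩ := par2 n hn σ g CP c (μ + τ) v₁ G e hσ hσn hgn hCP hc (by positivity) hv₁0
      hG0 he0
  obtain ⟨δh, hδh, hhp⟩ := hpar n hn G γ₀ εc e CP CA b₀ r₀ lam0 hG0 he0 he1 hεc hγ₀ hCP hCApos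
    hb₀ hr₀ hl00
  obtain ⟨f, af, hfm, hfe, hf01, haf, hfa, hfQ⟩ := hsym0 (G * e / 16) (by positivity)
  obtain ⟨C, hC0, hupt⟩ := hUPT n μ af v f hn1 hμ hv hfm hfe hf01 haf hfa
    (ne_top_of_le_ne_top ENNReal.ofReal_ne_top hfQ)
  obtain ⟨δ₀, hδ₀⟩ : ∃ δ₀ : ℝ, δ₀ = min (min δp δh) (min G (min
    (G ^ 2 * e / (16 * (G + 1) * (C + 1))) (G * e / (16 * (C + 1))))) := ⟨_, rfl⟩
  have hδ₀0 : 0 < δ₀ := by
    rw [hδ₀]
    exact lt_min (lt_min hδp hδh) (lt_min hG0 (lt_min (by positivity) (by positivity)))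
  refine ⟨δ₀, hδ₀0, ?_⟩
  intro δ hδ hδle0
  have hδle := hδle0
  rw [hδ₀] at hδle
  have hδ1' : δ ≤ δp := (hδle.trans (min_le_left _ _)).trans (min_le_left _ _)
  have hδ2' : δ ≤ δh := (hδle.trans (min_le_left _ _)).trans (min_le_right _ _)
  have hδ3' : δ ≤ G := (hδle.trans (min_le_right _ _)).trans (min_le_left _ _)
  have hδ4' : δ ≤ G ^ 2 * e / (16 * (G + 1) * (C + 1)) :=
    ((hδle.trans (min_le_right _ _)).trans (min_le_right _ _)).trans (min_le_left _ _)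
  have hδ5' : δ₀ ≤ G * e / (16 * (C + 1)) := by
    rw [hδ₀]
    exact ((min_le_right _ _).trans (min_le_right _ _)).trans (min_le_right _ _)
  obtain ⟨hδ1, hfin⟩ := hpar2 δ hδ hδ1'
  have hh := hhp δ hδ hδ2'
  set r₁ : ℝ := δ / G with hr₁
  have hr₁0 : 0 < r₁ := by positivity
  have hδr : δ = G * r₁ := by rw [hr₁]; field_simp
  have hr₁1 : r₁ ≤ 1 := by rw [hr₁, div_le_one hG0]; exact hδ3'
  have hs1 : (G + 1) * C * r₁ ≤ G * e / 16 := by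
    rw [le_div_iff₀ (by positivity)] at hδ4'
    have h1 : (G + 1) * C * r₁ ≤ (G + 1) * (C + 1) * r₁ := by
      gcongr
      linarith
    have h2 : (G + 1) * (C + 1) * r₁ ≤ G * e / 16 := by
      rw [hr₁, mul_div_assoc', div_le_iff₀ hG0]
      linarith only [hδ4']
    exact h1.trans h2
  have hs2 : C * δ₀ ≤ G * e / 16 := by
    rw [le_div_iff₀ (by positivity)] at hδ5'
    linarith only [hδ5', hδ₀0]
  set Λ : ℝ := lam0 * δ ^ (-(1 / 2 : ℝ)) with hΛ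
  have hΛ0 : 0 < Λ := by positivity
  set Γ : ℝ := c * δ ^ (g + n / 2) * (1 + 2 * √n) ^ (-(n + σ)) with hΓ
  have hΓ0 : 0 < Γ := by positivity
  set κ₀ : ℝ := η4 * δ * ((Λ / 2) ^ n * Γ) with hκ₀
  have hκ₀0 : 0 < κ₀ := by positivity
  -- the tolerance is small on large tori
  obtain ⟨J₀, hJ₀⟩ : ∃ J₀ : ℕ, ∀ J : ℕ, J₀ ≤ J →
      κ₀ * (2 : ℝ) ^ (-(σ * J)) ≤ G * e / 16 * r₁ ^ 2 := by
    have h1 : (2 : ℝ) ^ (-σ) < 1 := Real.rpow_lt_one_of_one_lt_of_neg (by norm_num) (by linarith)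
    have h2 : (0 : ℝ) < G * e / 16 * r₁ ^ 2 / κ₀ := by positivity
    obtain ⟨J₀, hJ⟩ := exists_pow_lt_of_lt_one h2 h1
    refine ⟨J₀, fun J hJJ => ?_⟩
    have h3 : (2 : ℝ) ^ (-(σ * J)) = ((2 : ℝ) ^ (-σ)) ^ J := by
      rw [← Real.rpow_natCast, ← Real.rpow_mul (by norm_num)]
      congr 1
      ring
    have h4 : ((2 : ℝ) ^ (-σ)) ^ J ≤ ((2 : ℝ) ^ (-σ)) ^ J₀ :=
      pow_le_pow_of_le_one (by positivity) h1.le hJJ
    rw [lt_div_iff₀ hκ₀0] at hJ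
    rw [h3]
    have h5 := mul_le_mul_of_nonneg_left h4 hκ₀0.le
    linarith only [h5, hJ]
  refine ⟨κ₀ * (Λ / 2) ^ σ / 2, max (8 * af) (Λ / 2 * 2 ^ (J₀ + 3)), by positivity, ?_⟩
  intro L _ K hL₀ hK hcostA hcostB hLB0
  have hLpos : 0 < L := Fact.out
  have hLa : 8 * af ≤ L := (le_max_left _ _).trans hL₀
  have hLJ : Λ / 2 * 2 ^ (J₀ + 3) ≤ L := (le_max_right _ _).trans hL₀
  have hV : (0 : ℝ) < L ^ n := by positivity
  have hPO : PO n L 2 CP (ENNReal.ofReal μ) K := by rw [hCPd]; exact hTRANS n L μ K hμ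
  have hPO0 : PO n L 2 CP (ENNReal.ofReal μ) (fun _ => 0) := by
    rw [hCPd]; exact hTRANS n L μ _ hμ
  have hLB : ∀ z, ENNReal.ofReal (c * δ ^ (g + n / 2) *
      (1 + δ ^ (1 / 2 : ℝ) * el z) ^ (-(n + σ))) ≤ K z := by
    intro z
    rw [← Real.sqrt_eq_rpow]
    exact hLB0 z
  have hcost : ENNReal.ofReal μ * ENNReal.ofReal (δ ^ (2 / 2 : ℝ)) +
      ∫⁻ z, K z * ENNReal.ofReal (min 1 (δ ^ (2 / 2 : ℝ) * el z ^ 2)) ≤
        ENNReal.ofReal ((μ + τ) * δ) := by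
    rw [show (2 / 2 : ℝ) = 1 by norm_num, Real.rpow_one, add_mul,
      ENNReal.ofReal_add (by positivity) (by positivity), ENNReal.ofReal_mul hμ.le]
    exact add_le_add le_rfl hcostB
  -- the smallest scale
  have h2J : (1 : ℝ) ≤ 2 ^ (J₀ + 3) := one_le_pow₀ (by norm_num)
  have hLΛ : 2 ^ (J₀ + 3) ≤ L / (Λ / 2) := by
    rw [le_div_iff₀ (by positivity)]
    linarith
  obtain ⟨J, hJ1, hJ2⟩ := near 2 (L / (Λ / 2)) (by norm_num) (h2J.trans hLΛ)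
  have hJJ : J₀ + 3 ≤ J := by
    by_contra hcon
    have h3 : (2 : ℝ) ^ (J + 1) ≤ 2 ^ (J₀ + 3) := pow_le_pow_right₀ (by norm_num) (by omega)
    linarith
  have h2Jp : (0 : ℝ) < 2 ^ J := by positivity
  set ℓ : ℝ := L / 2 ^ J with hℓdef
  have hℓ0 : 0 < ℓ := by positivity
  have hLℓ : L = 2 ^ J * ℓ := by rw [hℓdef]; field_simp
  have hℓ1 : Λ / 2 ≤ ℓ := by
    rw [hℓdef, le_div_iff₀ h2Jp]
    rw [le_div_iff₀ (by positivity)] at hJ1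
    linarith
  have hℓ2 : ℓ ≤ Λ := by
    rw [hℓdef, div_le_iff₀ h2Jp]
    rw [div_lt_iff₀ (by positivity), pow_succ] at hJ2
    linarith
  obtain ⟨hPe, ω0, hω0, hcond⟩ := hfin ℓ hℓ1 hℓ2
  obtain ⟨s, s₁, b, b₁, r, hℓb, hbb, hr₀r, h4r, hb1, hb₀b, hfin2⟩ := hh ℓ hℓ1
  have hr0 : 0 < r := by linarith
  have hb0 : 0 < b := by linarith
  have hb₁0 : 0 < b₁ := by linarith
  have h1εc : 0 < 1 - εc := by linarith
  obtain ⟨κ, hκ⟩ : ∃ κ : ℝ, κ = 2 * (2 ^ s₁) ^ n := ⟨_, rfl⟩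
  have hκ0 : 0 < κ := by rw [hκ]; positivity
  obtain ⟨X', hX'⟩ : ∃ X' : ℝ, X' = γ₀ * (5 * κ ^ 2 / b ^ n + κ / (εc * (2 * r) ^ n)) *
    (CP * b ^ 2) := ⟨_, rfl⟩
  have hX'0 : 0 ≤ X' := by rw [hX']; positivity
  obtain ⟨haB, ha₂B⟩ := hfin2 κ X' hκ hX'
  obtain ⟨a, ha⟩ : ∃ a : ℝ, a = (1 + X') / (γ₀ * (1 - εc) * r₁ ^ 2) + 12 * (CA * b₁ ^ n) / r₁ :=
    ⟨_, rfl⟩
  obtain ⟨a₂, ha₂⟩ : ∃ a₂ : ℝ, a₂ = γ₀ * (1 / b ^ n) * (κ / b ^ n + κ ^ 2 / b ^ n *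
    (4 * n * r / b + 2 * κ * (4 * r / b) ^ n)) / (γ₀ * (1 - εc) * r₁ ^ 2) := ⟨_, rfl⟩
  rw [← ha] at haB
  rw [← ha₂] at ha₂B
  have ha0 : 0 ≤ a := by rw [ha]; positivity
  have ha₂0 : 0 ≤ a₂ := by rw [ha₂]; positivity
  have hq8 : 8 ≤ 2 ^ J * 2 ^ s * 2 ^ s₁ := by
    have h1 : 2 ^ 3 ≤ 2 ^ J := Nat.pow_le_pow_right (by norm_num) (by omega)
    have h2 : 1 ≤ 2 ^ s := Nat.one_le_two_pow
    have h3 : 1 ≤ 2 ^ s₁ := Nat.one_le_two_pow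
    calc 8 = 2 ^ 3 * 1 * 1 := by norm_num
      _ ≤ 2 ^ J * 2 ^ s * 2 ^ s₁ := Nat.mul_le_mul (Nat.mul_le_mul h1 h2) h3
  have hla1 := fun (F : Multiset (Tor n L) → ℂ) (hF : EB F) =>
    hla L b₁ (2 ^ J * 2 ^ s * 2 ^ s₁) (ENNReal.ofReal μ) K hb₀b (by
      push_cast
      rw [hLℓ, hℓb, hbb]
      ring) hq8 hK hPO F hF
  have hHP : ∀ F : Multiset (Tor n L) → ℂ, EB F → ENNReal.ofReal (ℓ ^ n) *
      ∑ i, ∫⁻ γ, ENNReal.ofReal (pf (((ms γ).map (hf n L ℓ (2 ^ J) i)).sum / (ℓ ^ n * r₁))) *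
        ‖F (ms γ)‖ₑ ^ 2 ∂(CB.lam (volume : Measure (Tor n L))) ≤
      ENNReal.ofReal a * en (ENNReal.ofReal μ) K v F +
        ENNReal.ofReal (a₂ * L ^ n) * nE volume F := by
    intro F hF
    have h1 := hp_core hLAY hCRD hTR hCVX hTF hBLK hn1 hK hv hμ hγ₀0 (hcap r hr₀r) hPO0 hCP.le
      hCApos.le hεc0 hεc1 hr0 h4r hb1 hb₁0 hr₁0 (by omega) hLℓ hℓb hbb (fun F hF =>
        (hla1 F hF).1.trans (by
          gcongr
          rw [hCA]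
          linarith)) hκ hX' rfl F hF
    rw [← ha] at h1
    refine h1.trans (le_of_eq ?_)
    congr 3
    rw [ha₂]
    ring
  have hLB' : (∃ C : ℝ, ∀ (N : ℕ) (Φ : (Fin N → Tor n L) → ℂ), IsWf Φ →
      ENNReal.ofReal (δ * N) ≤ enN (ENNReal.ofReal μ) K v Φ + ENNReal.ofReal C) := by
    refine ⟨δ * ((2 ^ J * 2 ^ s * 2 ^ s₁ : ℕ) : ℝ) ^ n, fun N Φ hΦ => ?_⟩
    obtain ⟨-, F, hF, hF1, hFN, hFe, -⟩ := hCONV n L (ENNReal.ofReal μ) K v N Φ hK hv hΦ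
    have h1 := (hla1 F hF).2
    rw [hFN, hF1, hFe, mul_one] at h1
    have h2 : δ * (CA0 * b₁ ^ n) ≤ 1 := by
      have h3 : 12 * (CA * b₁ ^ n) / r₁ ≤ 2 / (G * r₁ ^ 2) * (1 + e) := by
        refine le_trans ?_ haB
        rw [ha]
        have : 0 ≤ (1 + X') / (γ₀ * (1 - εc) * r₁ ^ 2) := by positivity
        linarith
      rw [div_le_iff₀ hr₁0] at h3
      have h4 : 2 / (G * r₁ ^ 2) * (1 + e) * r₁ * δ = 2 * (1 + e) := by
        rw [hδr]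
        field_simp
      have h5 := mul_le_mul_of_nonneg_right h3 hδ.le
      rw [h4] at h5
      have h6 : 0 ≤ δ * b₁ ^ n := by positivity
      rw [hCA] at h5
      linarith only [h5, h6, he1]
    rw [ENNReal.ofReal_mul hδ.le]
    calc ENNReal.ofReal δ * ENNReal.ofReal N
        ≤ ENNReal.ofReal δ * (ENNReal.ofReal (((2 ^ J * 2 ^ s * 2 ^ s₁ : ℕ) : ℝ) ^ n) +
          ENNReal.ofReal (CA0 * b₁ ^ n) * enN (ENNReal.ofReal μ) K v Φ) := mul_le_mul_right h1 _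
      _ = ENNReal.ofReal (δ * (CA0 * b₁ ^ n)) * enN (ENNReal.ofReal μ) K v Φ +
          ENNReal.ofReal (δ * ((2 ^ J * 2 ^ s * 2 ^ s₁ : ℕ) : ℝ) ^ n) := by
          rw [mul_add, ← mul_assoc, ← ENNReal.ofReal_mul hδ.le, ← ENNReal.ofReal_mul hδ.le,
            add_comm]
      _ ≤ 1 * enN (ENNReal.ofReal μ) K v Φ +
          ENNReal.ofReal (δ * ((2 ^ J * 2 ^ s * 2 ^ s₁ : ℕ) : ℝ) ^ n) := by
          gcongr
          rw [← ENNReal.ofReal_one]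
          exact ENNReal.ofReal_le_ofReal h2
      _ = _ := by rw [one_mul]
  refine ⟨hLB', ?_⟩
  intro N Ψ hΨ hnear
  -- the tolerance
  set tol : ℝ := κ₀ * (2 : ℝ) ^ (-(σ * J)) with htol
  have htol0 : 0 < tol := by positivity
  have htolm : tol ≤ G * e / 16 * r₁ ^ 2 := hJ₀ J (by omega)
  have htolV : κ₀ * (Λ / 2) ^ σ / 2 * L ^ (n - σ) ≤ tol * L ^ n / 2 := by
    have h1 : L ^ ((n : ℝ) - σ) = L ^ n * (2 : ℝ) ^ (-(σ * J)) * ℓ ^ (-σ) := by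
      rw [Real.rpow_sub hLpos, Real.rpow_natCast, div_eq_mul_inv, ← Real.rpow_neg hLpos.le]
      nth_rewrite 2 [hLℓ]
      rw [Real.mul_rpow h2Jp.le hℓ0.le, ← Real.rpow_natCast 2 J, ← Real.rpow_mul (by norm_num)]
      rw [show (J : ℝ) * -σ = -(σ * J) by ring]
      ring
    have h2 : (Λ / 2) ^ σ * ℓ ^ (-σ) ≤ 1 := by
      rw [Real.rpow_neg hℓ0.le, ← div_eq_mul_inv, div_le_one (by positivity)]
      exact Real.rpow_le_rpow (by positivity) hℓ1 hσ.le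
    rw [h1]
    calc κ₀ * (Λ / 2) ^ σ / 2 * (L ^ n * (2 : ℝ) ^ (-(σ * J)) * ℓ ^ (-σ))
        = tol * L ^ n / 2 * ((Λ / 2) ^ σ * ℓ ^ (-σ)) := by rw [htol]; ring
      _ ≤ tol * L ^ n / 2 * 1 := by gcongr
      _ = tol * L ^ n / 2 := mul_one _
  -- finiteness of the energy
  have hfinite : enN (ENNReal.ofReal μ) K v Ψ ≠ ⊤ := by
    obtain ⟨Φ, hΦ, hΦe⟩ := hTRIAL n L v₁ (ENNReal.ofReal μ) K v 0 hv hv₁0.le hv1
    have h1 := hnear 0 Φ hΦ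
    have h2 : enN (ENNReal.ofReal μ) K v Φ +
        ENNReal.ofReal (δ * N + κ₀ * (Λ / 2) ^ σ / 2 * L ^ ((n : ℝ) - σ)) < ⊤ :=
      ENNReal.add_lt_top.2 ⟨lt_of_le_of_lt hΦe ENNReal.ofReal_lt_top, ENNReal.ofReal_lt_top⟩
    exact (lt_of_le_of_lt (le_self_add.trans h1) h2).ne
  -- it is enough to consider bounded wave functions
  have red : ∀ ε' : ℝ, 0 < ε' → |N / L ^ n - r₁| ≤ 3 * √e * r₁ ∧
      (1 - 9 * √e) * N ≤ condN Ψ + ε' := by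
    intro ε₂ hε₂
    set ε' : ℝ := min ε₂ (tol * L ^ n / 2) with hε'
    have hε'0 : 0 < ε' := lt_min hε₂ (by positivity)
    obtain ⟨Ψ', hΨ', hΨe, hΨc⟩ := hTRUNC n L (ENNReal.ofReal μ) K v N Ψ ε' hK hv hε'0 hΨ hfinite
    have hnear' : ∀ (N' : ℕ) (Φ : (Fin N' → Tor n L) → ℂ), IsWf Φ →
        enN (ENNReal.ofReal μ) K v Ψ' + ENNReal.ofReal (δ * N') ≤
          enN (ENNReal.ofReal μ) K v Φ + ENNReal.ofReal (δ * N + tol * L ^ n) := by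
      intro N' Φ hΦ
      calc enN (ENNReal.ofReal μ) K v Ψ' + ENNReal.ofReal (δ * N')
          ≤ enN (ENNReal.ofReal μ) K v Ψ + ENNReal.ofReal ε' + ENNReal.ofReal (δ * N') := by gcongr
        _ = enN (ENNReal.ofReal μ) K v Ψ + ENNReal.ofReal (δ * N') + ENNReal.ofReal ε' := by ring
        _ ≤ enN (ENNReal.ofReal μ) K v Φ +
            ENNReal.ofReal (δ * N + κ₀ * (Λ / 2) ^ σ / 2 * L ^ ((n : ℝ) - σ)) +
            ENNReal.ofReal ε' := add_le_add (hnear N' Φ hΦ) le_rfl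
        _ = enN (ENNReal.ofReal μ) K v Φ +
            ENNReal.ofReal (δ * N + κ₀ * (Λ / 2) ^ σ / 2 * L ^ ((n : ℝ) - σ) + ε') := by
            rw [add_assoc, ← ENNReal.ofReal_add (by positivity) hε'0.le]
        _ ≤ enN (ENNReal.ofReal μ) K v Φ + ENNReal.ofReal (δ * N + tol * L ^ n) := by
            refine add_le_add le_rfl (ENNReal.ofReal_le_ofReal ?_)
            have h9 : ε' ≤ tol * L ^ n / 2 := min_le_right _ _
            linarith only [h9, htolV]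
    have hfin' : enN (ENNReal.ofReal μ) K v Ψ' ≠ ⊤ :=
      (lt_of_le_of_lt hΨe (ENNReal.add_lt_top.2 ⟨lt_top_iff_ne_top.2 hfinite,
        ENNReal.ofReal_lt_top⟩)).ne
    set E : ℝ := (enN (ENNReal.ofReal μ) K v Ψ').toReal with hE
    have hE0 : 0 ≤ E := ENNReal.toReal_nonneg
    have hEe : enN (ENNReal.ofReal μ) K v Ψ' = ENNReal.ofReal E := (ENNReal.ofReal_toReal hfin').symm
    have hN0 : (0 : ℝ) ≤ N := Nat.cast_nonneg N
    -- comparison with the vacuum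
    have hEle : E ≤ δ * N + tol * L ^ n := by
      obtain ⟨Φ, hΦ, hΦe⟩ := hTRIAL n L v₁ (ENNReal.ofReal μ) K v 0 hv hv₁0.le hv1
      have h1 := hnear' 0 Φ hΦ
      have h2 : enN (ENNReal.ofReal μ) K v Φ = 0 := by
        have : ENNReal.ofReal (((0 : ℕ) : ℝ) ^ 2 * v₁ / (2 * L ^ n)) = 0 := by simp
        rw [this] at hΦe
        exact le_antisymm hΦe zero_le
      rw [h2, zero_add, hEe] at h1
      have h3 := le_self_add.trans h1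
      rwa [ENNReal.ofReal_le_ofReal_iff (by positivity)] at h3
    set e' : ℝ := δ * N + tol * L ^ n - E with he'
    have he'0 : 0 ≤ e' := by rw [he']; linarith
    have hlow := hLOWN n L (ENNReal.ofReal μ) K v δ e' hK hv hδ.le he'0 (by
      intro N' Φ hΦ
      have h1 := hnear' N' Φ hΦ
      rw [hEe, show δ * N + tol * L ^ n = E + e' by rw [he']; ring,
        ENNReal.ofReal_add hE0 he'0, add_left_comm] at h1
      exact (ENNReal.add_le_add_iff_left ENNReal.ofReal_ne_top).1 h1)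
    -- the upper bound of the energy
    obtain ⟨φ, hφ, hφ1, hφN, -, hφE⟩ := hupt L K δ₀ r₁ hLa hK hδ₀0.le hr₁0 hr₁1 hcostA
    have hup := upper hφ hφ1 hφN hφE hfQ hlow he' he'0 hG0 he0 hC0 hδ₀0.le hr₁0 hδr hs1
      hs2 htolm
    -- Fock space
    obtain ⟨hcn0, F, hF, hF1, hFN, hFe, hFc⟩ := hCONV n L (ENNReal.ofReal μ) K v N Ψ' hK hv hΨ'
    rw [hEe] at hFe
    have hcoh : ∀ F : Multiset (Tor n L) → ℂ, EB F → ENNReal.ofReal (ℓ ^ n) * nuE volume F ≤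
        ∑ i, nE volume (ag volume (hf n L ℓ (2 ^ J) i) F) +
          ENNReal.ofReal (ℓ ^ n * (CP * 2 ^ ((n : ℝ) + 2) * ℓ ^ (2 : ℝ))) *
            en (ENNReal.ofReal μ) K v F := by
      intro F hF
      have h2q : 2 ≤ 2 ^ J := by
        calc 2 = 2 ^ 1 := rfl
          _ ≤ 2 ^ J := Nat.pow_le_pow_right (by norm_num) (by omega)
      have hℓge : b ≤ ℓ := by
        rw [hℓb]
        calc b = 1 * b := (one_mul b).symm
          _ ≤ 2 ^ s * b := by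
            have : (1 : ℝ) ≤ 2 ^ s := one_le_pow₀ (by norm_num)
            gcongr
      refine (hCOH n L ℓ 2 CP (2 ^ J) (ENNReal.ofReal μ) K hK hCP.le hPO h2q
        (by rw [hLℓ]; push_cast; rfl) (by linarith) F hF).trans ?_
      gcongr
      · exact le_rfl
      · exact le_self_add
    have hXX : ∀ j : ℕ, j ≤ J → ENNReal.ofReal μ * (∑ c : Fin n, ⨆ k : ℕ, 4 ^ k *
        ENNReal.ofReal (sm n (2 ^ j * ℓ) (Pi.single c ((2 : ℝ)⁻¹ ^ k)))) +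
        2⁻¹ * ∫⁻ z, K z * ENNReal.ofReal (sm n (2 ^ j * ℓ) z) ≤
          ENNReal.ofReal (64 * n / lam0 ^ 2 * ((μ + τ) * δ)) := by
      intro j _
      refine cost n 2 δ lam0 (μ + τ) (2 ^ j * ℓ) hδ hl00 hl01 hn1 ?_ (ENNReal.ofReal μ) K hcost
      have h1 : (1 : ℝ) ≤ 2 ^ j := one_le_pow₀ (by norm_num)
      calc lam0 * δ ^ (-(1 / 2 : ℝ)) / 2 ≤ ℓ := hℓ1
        _ = 1 * ℓ := (one_mul _).symm
        _ ≤ 2 ^ j * ℓ := by gcongr
    set Q : ℝ := L ^ n * condN Ψ' with hQ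
    have hQ0 : 0 ≤ Q := by positivity
    have hTle : tol * (2 : ℝ) ^ (σ * J) / (ℓ ^ n * Γ) ≤ η4 * δ := by
      have h1 : (2 : ℝ) ^ (-(σ * J)) * (2 : ℝ) ^ (σ * J) = 1 := by
        rw [← Real.rpow_add (by norm_num)]; simp
      rw [div_le_iff₀ (by positivity)]
      calc tol * (2 : ℝ) ^ (σ * J) = κ₀ * ((2 : ℝ) ^ (-(σ * J)) * (2 : ℝ) ^ (σ * J)) := by
            rw [htol]; ring
        _ = η4 * δ * ((Λ / 2) ^ n * Γ) := by rw [h1, mul_one]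
        _ ≤ η4 * δ * (ℓ ^ n * Γ) := by gcongr
    obtain ⟨c2, c3⟩ := hcond _ _ _ _ _ _ hTle rfl rfl rfl rfl rfl
    obtain ⟨res1, res2⟩ := atL hBOT hLAM hEBC hS hB hM hH hR hSM hG hD hDE hTF hℓ0 hLℓ hK hv
      hv₁0.le hv1 hδ he'0 hN0 hE0 hQ0 htol0.le (by rw [he']; linarith) hF hF1 hFN hFe.le
      (by rw [hFc]) hlow hG0 he0 he1 hδr hup
      (P := CP * 2 ^ ((n : ℝ) + 2) * ℓ ^ (2 : ℝ)) (by positivity) hPe ha0 haB ha₂0 ha₂B hcoh hHP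
      (σ := σ) (Γ := Γ) (X := 64 * n / lam0 ^ 2 * ((μ + τ) * δ)) hΓ0 (by positivity) hσ
      (fun j _ _ => kern n 2 σ g δ lam0 c ℓ hδ hσ hl01 hc hℓ0 hℓ2 K hLB j) hXX hω0
      hlam0 hlm hmu1 hρ0 hmuρ hlam2 hlams rfl rfl rfl rfl rfl rfl hq c2 c3
    refine ⟨res1, ?_⟩
    have h1 : (1 - 9 * √e) * N ≤ condN Ψ' := by
      have h2 : Q / (L ^ n) ^ 2 = condN Ψ' / L ^ n := by
        rw [hQ]
        field_simp
      rw [h2, mul_div_assoc', div_le_div_iff_of_pos_right hV] at res2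
      exact res2
    have h3 : ε' ≤ ε₂ := min_le_left _ _
    linarith only [h1, h3, hΨc]
  constructor
  · refine (red 1 one_pos).1.trans ?_
    have h1 : 3 * √e ≤ ε := by linarith
    exact mul_le_mul_of_nonneg_right h1 hr₁0.le
  · have h1 : (1 - 9 * √e) * N ≤ condN Ψ :=
      le_of_forall_pos_le_add fun ε' hε' => (red ε' hε').2
    have h2 : (1 - ε) * N ≤ (1 - 9 * √e) * N :=
      mul_le_mul_of_nonneg_right (by linarith) (Nat.cast_nonneg N)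
    exact h2.trans h1

end

end Pool.Agent.W761.CC
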